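import Pool.Agent.EQ.Defs

/-!
# Registers are equivariant
-/

set_option autoImplicit false

namespace Pool.Agent.EQ

variable {K : Type} [Field K] {n : ℕ} {G : Subgroup (Equiv.Perm (Fin n))} {d : ℕ}

/-- renaming of the variables -/
def rename (g : Equiv.Perm (Fin n)) (y : Input n) : Input n := fun e => y (Sym2.map g.symm e)

theorem permRep_apply {H : Type} [Group H] {ι : Type} (α : H →* Equiv.Perm ι) (g : H)
    (v : ι → K) (a : ι) : permRep K α g v a = v ((α g).symm a) := rfl

theorem Reg.card_le {ι : Type} {ρ : Representation K G (ι → K)} {r : Input n → ι → K}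
    (h : Reg G d ρ r) : Finite ι ∧ Nat.card ι ≤ d := by
  induction h with
  | input h => exact ⟨inferInstance, by rwa [Nat.card_eq_fintype_card]⟩
  | const h => exact ⟨inferInstance, by rwa [Nat.card_eq_fintype_card]⟩
  | add _ _ ih _ => exact ih
  | bilin _ _ h => exact ⟨inferInstance, by rwa [Nat.card_eq_fintype_card]⟩
  | gate _ _ _ h => exact ⟨inferInstance, by rwa [Nat.card_eq_fintype_card]⟩

theorem map_univ_perm {ι : Type} [Fintype ι] {X : Type} (σ : Equiv.Perm ι) (f : ι → X) :
    (Finset.univ : Finset ι).val.map (fun b => f (σ b)) = (Finset.univ : Finset ι).val.map f := by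
  have h1 : (Finset.univ : Finset ι).val.map (fun b => f (σ b)) =
      ((Finset.univ : Finset ι).val.map σ).map f := by
    rw [Multiset.map_map]; rfl
  have h2 : (Finset.univ : Finset ι).val.map σ = (Finset.univ : Finset ι).val := by
    have h3 := congrArg Finset.val (Finset.map_univ_equiv σ)
    exact h3
  rw [h1, h2]

theorem Reg.equivariant {ι : Type} {ρ : Representation K G (ι → K)} {r : Input n → ι → K}
    (h : Reg G d ρ r) (g : G) (y : Input n) : r (rename g.1 y) = ρ g (r y) := by
  induction h with
  | input h => rfl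
  | const h ρ v hv => exact (hv g).symm
  | add _ _ ih₁ ih₂ =>
    change _ + _ = _
    rw [ih₁, ih₂, map_add]
  | bilin _ _ h ρ B hB ih₁ ih₂ =>
    change B _ _ = _
    rw [ih₁, ih₂, hB]
  | @gate κ ι _ α r hr ι' _ h β lab hlab F hF ih =>
    funext a
    rw [permRep_apply]
    set a' := (β g).symm a with ha'
    have ha : a = β g a' := ((β g).apply_symm_apply a).symm
    rw [ha]
    change F (β g a') _ = F a' _
    rw [hF]
    congr 1
    funext j
    rw [ih j, ← map_univ_perm (α j g)]
    congr 1
    funext b
    rw [permRep_apply, Equiv.symm_apply_apply, hlab]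

end Pool.Agent.EQ
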