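import Pool.Agent.Helper94.SN.Net

/-!
# Equivariant programs over a field

The definitions used in the statement of the lower bound for equivariant programs that count the
models of monotone 2-CNFs.
-/

set_option autoImplicit false

namespace Pool.Agent.EQ

/-- The monotone 2-CNFs in the variables `x₀, …, x_{n-1}`: the bit `y s(i, j)` says whether the
clause `(xᵢ ∨ xⱼ)` is present (for `i = j` this is the unit clause `xᵢ`). -/
abbrev Input (n : ℕ) : Type := Sym2 (Fin n) → Bool

/-- the action of a group of permutations of the variables on the clauses -/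
def clausePerm {n : ℕ} (G : Subgroup (Equiv.Perm (Fin n))) : G →* Equiv.Perm (Sym2 (Fin n)) where
  toFun g :=
    { toFun := Sym2.map g.1
      invFun := Sym2.map g.1.symm
      left_inv := fun e => by
        rw [← Function.comp_apply (f := Sym2.map g.1.symm), ← Sym2.map_comp,
          Equiv.symm_comp_self, Sym2.map_id, id]
      right_inv := fun e => by
        rw [← Function.comp_apply (f := Sym2.map g.1), ← Sym2.map_comp,
          Equiv.self_comp_symm, Sym2.map_id, id] }
  map_one' := by
    ext1 e
    change Sym2.map id e = e
    rw [Sym2.map_id, id]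
  map_mul' g h := by
    ext1 e
    change Sym2.map (g.1 ∘ h.1) e = Sym2.map g.1 (Sym2.map h.1 e)
    rw [Sym2.map_comp, Function.comp_apply]

/-- the permutation module `K ^ ι` of an action `α` of `G` on `ι` -/
def permRep (K : Type) [Field K] {G : Type} [Group G] {ι : Type} (α : G →* Equiv.Perm ι) :
    Representation K G (ι → K) where
  toFun g := LinearMap.funLeft K K (α g).symm
  map_one' := by
    rw [map_one]
    rfl
  map_mul' g h := by
    rw [map_mul]
    rfl

/-- `Reg G d ρ r` says that the function `r`, from the monotone 2-CNFs in `n` variables to the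
representation `ρ` of `G` on `K ^ ι`, is the content of a register of some `G`-equivariant program
over the field `K` all of whose registers have at most `d` coordinates. There is no bound on the
number of instructions. The instructions are:
* `input`: the clause bits of the formula, as a vector of the permutation module of the clauses;
* `const`: a vector fixed by `G`, in any representation;
* `add`: the sum of two registers with the same representation;
* `bilin`: a `G`-equivariant bilinear map, to any representation, of two registers;
* `gate`: a family of gates permuted by `G`. The gate `a` reads, from each register `r j` of a family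
  of registers that are permutation modules, the multiset of the pairs (label of the wire, value),
  and its value is an arbitrary function `F a` of these multisets. -/
inductive Reg {K : Type} [Field K] {n : ℕ} (G : Subgroup (Equiv.Perm (Fin n))) (d : ℕ) :
    {ι : Type} → Representation K G (ι → K) → (Input n → ι → K) → Prop
  | input (h : Fintype.card (Sym2 (Fin n)) ≤ d) :
      Reg G d (permRep K (clausePerm G)) (fun y e => if y e then 1 else 0)
  | const {ι : Type} [Fintype ι] (h : Fintype.card ι ≤ d) (ρ : Representation K G (ι → K))
      (v : ι → K) (hv : ∀ g, ρ g v = v) :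
      Reg G d ρ (fun _ => v)
  | add {ι : Type} {ρ : Representation K G (ι → K)} {r₁ r₂ : Input n → ι → K}
      (h₁ : Reg G d ρ r₁) (h₂ : Reg G d ρ r₂) :
      Reg G d ρ (fun y => r₁ y + r₂ y)
  | bilin {ι₁ ι₂ : Type} {ρ₁ : Representation K G (ι₁ → K)} {ρ₂ : Representation K G (ι₂ → K)}
      {r₁ : Input n → ι₁ → K} {r₂ : Input n → ι₂ → K}
      (h₁ : Reg G d ρ₁ r₁) (h₂ : Reg G d ρ₂ r₂)
      {ι : Type} [Fintype ι] (h : Fintype.card ι ≤ d) (ρ : Representation K G (ι → K))
      (B : (ι₁ → K) →ₗ[K] (ι₂ → K) →ₗ[K] (ι → K))
      (hB : ∀ g u v, B (ρ₁ g u) (ρ₂ g v) = ρ g (B u v)) :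
      Reg G d ρ (fun y => B (r₁ y) (r₂ y))
  | gate {κ : Type} {ι : κ → Type} [∀ j, Fintype (ι j)] (α : ∀ j, G →* Equiv.Perm (ι j))
      (r : ∀ j, Input n → ι j → K) (hr : ∀ j, Reg G d (permRep K (α j)) (r j))
      {ι' : Type} [Fintype ι'] (h : Fintype.card ι' ≤ d) (β : G →* Equiv.Perm ι')
      (lab : ∀ j, ι' → ι j → ℕ) (hlab : ∀ g j a b, lab j (β g a) (α j g b) = lab j a b)
      (F : ι' → (κ → Multiset (ℕ × K)) → K) (hF : ∀ g a, F (β g a) = F a) :
      Reg G d (permRep K β)
        (fun y a => F a (fun j => (Finset.univ : Finset (ι j)).val.map
          (fun b => (lab j a b, r j y b))))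

/-- `ContainsAlt β G` says that the group `G` of permutations of the `n` variables contains the
product `Alt(B₀) × … × Alt(B_{m-1})` of the alternating groups of the `m` disjoint sets
`B_k = {β (k, 0), …, β (k, 31)}` of `32` variables: for every family of even permutations `f k` of
`{0, …, 31}` the permutation `β (k, w) ↦ β (k, f k w)`, which fixes all other variables, is in
`G`. -/
def ContainsAlt {m n : ℕ} (β : Fin m × Fin 32 ↪ Fin n) (G : Subgroup (Equiv.Perm (Fin n))) : Prop :=
  ∀ f : Fin m → Equiv.Perm (Fin 32), (∀ k, Equiv.Perm.sign (f k) = 1) →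
    Equiv.Perm.viaEmbedding (Equiv.prodCongrRight f) β ∈ G

end Pool.Agent.EQ
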