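import Pool.Agent.EQ.Moves

/-!
# A representation that contains a complicated character has large dimension
-/

set_option autoImplicit false

namespace Pool.Agent.EQ

open Equiv Equiv.Perm Pool.Agent.Helper94.SN

variable {M N n : ℕ}

section

variable {G : Subgroup (Perm (Fin n))}

/-- the translation by `a` as an element of the group -/
noncomputable def gT {ι : Vert M ↪ Fin n} (hG : Adm ι G)
    (a : Fin M × Fin 5 → ZMod 2) : G :=
  ⟨(tau a).viaEmbedding ι, hG _ (fun _ => sign_tr _)⟩

theorem gT_add {ι : Vert M ↪ Fin n} (hG : Adm ι G)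
    (a b : Fin M × Fin 5 → ZMod 2) : gT hG (a + b) = gT hG a * gT hG b := by
  apply Subtype.ext
  have h1 : viaEmbeddingHom ι (tau (a + b)) = viaEmbeddingHom ι (tau a) * viaEmbeddingHom ι (tau b) := by
    rw [tau_add, map_mul]
  exact h1

theorem gT_zero {ι : Vert M ↪ Fin n} (hG : Adm ι G) :
    gT hG 0 = 1 := by
  apply Subtype.ext
  have h1 : viaEmbeddingHom ι (tau (0 : Fin M × Fin 5 → ZMod 2)) = 1 := by
    rw [tau_zero, map_one]
  exact h1

theorem gT_mul_self {ι : Vert M ↪ Fin n} (hG : Adm ι G)
    (a : Fin M × Fin 5 → ZMod 2) : gT hG a * gT hG a = 1 := by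
  rw [← gT_add, ← gT_zero hG]
  congr 1
  funext p
  exact CharTwo.add_self_eq_zero _

/-- the transvections as an element of the group -/
noncomputable def gU {ι : Vert M ↪ Fin n} (hG : Adm ι G) (U : Finset (Fin M))
    {i j : Fin M → Fin 5} (hij : ∀ q, i q ≠ j q) : G :=
  ⟨(tvPerm U hij).viaEmbedding ι, hG _ (fun q => by
    by_cases h : q ∈ U
    · rw [if_pos h, sign_tvq]
    · rw [if_neg h, map_one])⟩

theorem gT_mul_gU {ι : Vert M ↪ Fin n} (hG : Adm ι G)
    (U : Finset (Fin M)) {i j : Fin M → Fin 5} (hij : ∀ q, i q ≠ j q)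
    (a : Fin M × Fin 5 → ZMod 2) :
    gT hG a * gU hG U hij = gU hG U hij * gT hG (tvVec U i j a) := by
  apply Subtype.ext
  have h1 : viaEmbeddingHom ι (tau a) * viaEmbeddingHom ι (tvPerm U hij) =
      viaEmbeddingHom ι (tvPerm U hij) * viaEmbeddingHom ι (tau (tvVec U i j a)) := by
    rw [← map_mul, tau_mul_tv, map_mul]
  exact h1

/-- the equations at which the character `D` is not trivial -/
def supp (D : Fin M × Fin 5 → ZMod 2) : Finset (Fin M) :=
  Finset.univ.filter fun q => ∃ i, D (q, i) ≠ 0

theorem mem_supp {D : Fin M × Fin 5 → ZMod 2} {q : Fin M} : q ∈ supp D ↔ ∃ i, D (q, i) ≠ 0 := by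
  unfold supp
  rw [Finset.mem_filter]
  exact ⟨fun h => h.2, fun h => ⟨Finset.mem_univ _, h⟩⟩

theorem dim_bound {ι : Vert M ↪ Fin n} (hG : Adm ι G)
    {K : Type} [Field K] (h2 : (2 : K) ≠ 0) {V : Type} [AddCommGroup V] [Module K V]
    [Module.Finite K V] (ρ : Representation K G V) {v : V} (hv : v ≠ 0)
    {D : Fin M × Fin 5 → ZMod 2} (hD : ∀ a, ρ (gT hG a) v = chi K D a • v) :
    2 ^ (supp D).card ≤ Module.finrank K V := by
  classical
  have h1 : ∀ q, ∃ j, q ∈ supp D → D (q, j) = 1 := by
    intro q
    by_cases h : q ∈ supp D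
    · obtain ⟨j, hj⟩ := mem_supp.1 h
      exact ⟨j, fun _ => (zmod_two _).resolve_left hj⟩
    · exact ⟨0, fun h' => absurd h' h⟩
  choose j hj using h1
  set i : Fin M → Fin 5 := fun q => j q + 1 with hi
  have hij : ∀ q, i q ≠ j q := by
    intro q
    rw [hi]
    change j q + 1 ≠ j q
    generalize j q = x
    revert x
    decide
  -- the vectors
  set δ : Finset (Fin M) → Fin M × Fin 5 → ZMod 2 :=
    fun U p => if p.1 ∈ U ∧ p.2 = i p.1 then 1 else 0 with hδ
  have hδinj : ∀ U U' : Finset (Fin M), δ U = δ U' → U = U' := by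
    intro U U' h
    ext q
    have h3 := congrFun h (q, i q)
    rw [hδ] at h3
    simp only [and_true] at h3
    by_cases hq : q ∈ U <;> by_cases hq' : q ∈ U' <;> simp [hq, hq'] at h3 ⊢
  set w : Finset (Fin M) → V := fun U => ρ (gU hG U hij) v with hw
  have hw0 : ∀ U, w U ≠ 0 := by
    intro U h
    apply hv
    have h3 : ρ (gU hG U hij)⁻¹ (w U) = v := by
      rw [hw]
      change (ρ (gU hG U hij)⁻¹ * ρ (gU hG U hij)) v = v
      rw [← map_mul, inv_mul_cancel, map_one]; rfl
    rw [← h3, h, map_zero]
  have hwD : ∀ U, U ⊆ supp D → ∀ a, ρ (gT hG a) (w U) = chi K (D + δ U) a • w U := by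
    intro U hU a
    rw [hw]
    change (ρ (gT hG a) * ρ (gU hG U hij)) v = _
    rw [← map_mul, gT_mul_gU, map_mul]
    change ρ (gU hG U hij) (ρ (gT hG (tvVec U i j a)) v) = _
    rw [hD, map_smul]
    congr 1
    rw [chi, dot_tvVec U i j D a (fun q hq => hj q (hU hq))]
    rfl
  have hli : LinearIndependent K (fun U : {U // U ∈ (supp D).powerset} => w U.1) := by
    rw [Fintype.linearIndependent_iff]
    intro g hg U₀
    have h3 : ∀ U : {U // U ∈ (supp D).powerset},
        ∑ a, chi K (D + δ U₀.1) a • ρ (gT hG a) (w U.1) =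
          if U = U₀ then (2 : K) ^ Fintype.card (Fin M × Fin 5) • w U.1 else 0 := by
      intro U
      have h4 : ∀ a, chi K (D + δ U₀.1) a • ρ (gT hG a) (w U.1) =
          chi K a (δ U₀.1 + δ U.1) • w U.1 := by
        intro a
        rw [hwD U.1 (Finset.mem_powerset.1 U.2), smul_smul, ← add_chi, chi_comm]
        congr 2
        funext p
        simp only [Pi.add_apply]
        have h5 : D p + D p = 0 := CharTwo.add_self_eq_zero _
        linear_combination h5
      simp only [h4]
      rw [← Finset.sum_smul, sum_chi h2]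
      by_cases h6 : U = U₀
      · rw [if_pos h6, h6, if_pos]
        funext p
        exact CharTwo.add_self_eq_zero _
      · rw [if_neg h6, if_neg, zero_smul]
        intro h7
        apply h6
        apply Subtype.ext
        apply hδinj
        funext p
        have h8 := congrFun h7 p
        simp only [Pi.add_apply, Pi.zero_apply] at h8
        have h9 : δ U₀.1 p + δ U₀.1 p = 0 := CharTwo.add_self_eq_zero _
        linear_combination h8 - h9
    have h10 : ∑ a, chi K (D + δ U₀.1) a • ρ (gT hG a)
        (∑ U : {U // U ∈ (supp D).powerset}, g U • w U.1) =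
        g U₀ • ((2 : K) ^ Fintype.card (Fin M × Fin 5) • w U₀.1) := by
      have h11 : ∀ a, chi K (D + δ U₀.1) a • ρ (gT hG a)
          (∑ U : {U // U ∈ (supp D).powerset}, g U • w U.1) =
          ∑ U : {U // U ∈ (supp D).powerset},
            g U • (chi K (D + δ U₀.1) a • ρ (gT hG a) (w U.1)) := by
        intro a
        rw [map_sum, Finset.smul_sum]
        apply Finset.sum_congr rfl
        intro U _
        rw [map_smul, smul_comm]
      simp only [h11]
      rw [Finset.sum_comm]
      have h12 : ∀ U : {U // U ∈ (supp D).powerset},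
          ∑ a, g U • (chi K (D + δ U₀.1) a • ρ (gT hG a) (w U.1)) =
          if U = U₀ then g U • ((2 : K) ^ Fintype.card (Fin M × Fin 5) • w U.1) else 0 := by
        intro U
        rw [← Finset.smul_sum, h3]
        by_cases h : U = U₀
        · rw [if_pos h, if_pos h]
        · rw [if_neg h, if_neg h, smul_zero]
      simp only [h12]
      rw [Finset.sum_ite_eq' Finset.univ U₀, if_pos (Finset.mem_univ _)]
    rw [hg] at h10
    simp only [map_zero, smul_zero, Finset.sum_const_zero] at h10
    rcases smul_eq_zero.1 h10.symm with h | h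
    · exact h
    · exfalso
      rcases smul_eq_zero.1 h with h | h
      · exact pow_ne_zero _ h2 h
      · exact hw0 _ h
  have h13 := hli.fintype_card_le_finrank
  rw [Fintype.card_coe, Finset.card_powerset] at h13
  exact h13

end

end Pool.Agent.EQ
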