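import Pool.Agent.EQ.Main

set_option autoImplicit false

/-!
Exponential lower bound for approximating the number of models of a monotone 2-CNF, from the bits
that describe the formula, by equivariant programs over a field: registers hold vectors of
arbitrary linear representations of a group of permutations of the variables, instructions are
arbitrary equivariant bilinear maps, sums, constants and arbitrary symmetric gates, and the number
of instructions is not bounded.
-/

namespace Pool.Agent.Results.MP_4ed1f9_lc.EquivariantPrograms

open Pool.Agent.Helper94.SN Pool.Agent.EQ

/-- Let `B₀, …, B_{m-1}` be disjoint sets of `32` of the `n` variables, given by `β`. There are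
monotone 2-CNFs `y` and `y'` in the `n` variables such that `y` has at least `2 ^ (m / 10 ^ 8)`
times as many models as `y'`, but for every field `K` of characteristic different from two and
every group `G` of permutations of the variables that contains `Alt(B₀) × … × Alt(B_{m-1})`, no
`G`-equivariant program over `K` whose registers have at most `d` coordinates, where
`2 d < 2 ^ (m / 10 ^ 8)`, can distinguish `y` from `y'`: every register with the trivial
representation has the same content on `y` and on `y'`. -/
theorem result (n m : ℕ) (β : Fin m × Fin 32 ↪ Fin n) :
    ∃ y y' : Input n, (2 : ℝ) ^ ((m : ℝ) / 10 ^ 8) * models n y' ≤ models n y ∧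
      ∀ (K : Type) [Field K], (2 : K) ≠ 0 →
        ∀ G : Subgroup (Equiv.Perm (Fin n)), ContainsAlt β G →
          ∀ d : ℕ, (2 * d : ℝ) < (2 : ℝ) ^ ((m : ℝ) / 10 ^ 8) →
            ∀ (ι : Type) (r : Input n → ι → K), Reg G d (1 : Representation K G (ι → K)) r →
              r y = r y' :=
  main n m β

end Pool.Agent.Results.MP_4ed1f9_lc.EquivariantPrograms
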