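import Mathlib

/-!
# Translations and transvections of `F_2 ^ 5` are even permutations
-/

set_option autoImplicit false

namespace Pool.Agent.EQ

open Equiv Equiv.Perm

theorem add_add_cancel_right' (a b : Fin 5 → ZMod 2) : a + b + b = a := by
  ext i
  rw [Pi.add_apply, Pi.add_apply, add_assoc, CharTwo.add_self_eq_zero, add_zero]

/-- the transvection that adds the coordinate `i` to the coordinate `j` -/
def tvq (i j : Fin 5) (hij : i ≠ j) : Perm (Fin 5 → ZMod 2) where
  toFun s := s + Pi.single j (s i)
  invFun s := s + Pi.single j (s i)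
  left_inv s := by
    simp only [Pi.add_apply, Pi.single_eq_of_ne hij, add_zero, add_add_cancel_right']
  right_inv s := by
    simp only [Pi.add_apply, Pi.single_eq_of_ne hij, add_zero, add_add_cancel_right']

theorem tvq_apply (i j : Fin 5) (hij : i ≠ j) (s : Fin 5 → ZMod 2) :
    tvq i j hij s = s + Pi.single j (s i) := rfl

/-- the translation by `a` -/
def tr (a : Fin 5 → ZMod 2) : Perm (Fin 5 → ZMod 2) where
  toFun s := s + a
  invFun s := s + a
  left_inv s := add_add_cancel_right' s a
  right_inv s := add_add_cancel_right' s a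

theorem tr_apply (a s : Fin 5 → ZMod 2) : tr a s = s + a := rfl

theorem tr_add (a b : Fin 5 → ZMod 2) : tr (a + b) = tr a * tr b := by
  ext1 s
  rw [Perm.mul_apply, tr_apply, tr_apply, tr_apply, add_assoc, add_comm b a]

theorem sign_tvq (i j : Fin 5) (hij : i ≠ j) : sign (tvq i j hij) = 1 := by
  obtain ⟨l, hil, hlj⟩ : ∃ l : Fin 5, i ≠ l ∧ l ≠ j := by
    revert i j; decide
  have h1 : tvq i j hij = tvq l j hlj * tvq i l hil * tvq l j hlj * tvq i l hil := by
    ext1 s
    rw [Perm.mul_apply, Perm.mul_apply, Perm.mul_apply]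
    simp only [tvq_apply]
    funext k
    simp only [Pi.add_apply, Pi.single_eq_of_ne hil, Pi.single_eq_of_ne hij,
      Pi.single_eq_of_ne hlj, Pi.single_eq_same, add_zero]
    have h2 : ∀ x : ZMod 2, x + x = 0 := CharTwo.add_self_eq_zero
    by_cases hkj : k = j
    · subst hkj
      rw [Pi.single_eq_same, Pi.single_eq_same, Pi.single_eq_of_ne hlj.symm]
      rw [Pi.single_eq_same]
      linear_combination -(h2 (s l)) - h2 (s i)
    · rw [Pi.single_eq_of_ne hkj, Pi.single_eq_of_ne hkj, Pi.single_eq_of_ne hkj]
      by_cases hkl : k = l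
      · subst hkl
        rw [Pi.single_eq_same]
        linear_combination -(h2 (s i))
      · rw [Pi.single_eq_of_ne hkl]
        ring
  rw [h1, map_mul, map_mul, map_mul]
  have h3 : ∀ a b : ℤˣ, a * b * a * b = 1 := by decide
  exact h3 _ _

theorem sign_tr_single (j : Fin 5) : sign (tr (Pi.single j 1)) = 1 := by
  obtain ⟨i, hij⟩ : ∃ i : Fin 5, i ≠ j := by
    revert j; decide
  have h1 : tr (Pi.single j 1) =
      tvq i j hij * tr (Pi.single i 1) * tvq i j hij * tr (Pi.single i 1) := by
    ext1 s
    rw [Perm.mul_apply, Perm.mul_apply, Perm.mul_apply]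
    simp only [tvq_apply, tr_apply]
    funext k
    simp only [Pi.add_apply, Pi.single_eq_of_ne hij, Pi.single_eq_same, add_zero]
    have h2 : ∀ x : ZMod 2, x + x = 0 := CharTwo.add_self_eq_zero
    by_cases hkj : k = j
    · subst hkj
      rw [Pi.single_eq_same, Pi.single_eq_same, Pi.single_eq_of_ne hij.symm, Pi.single_eq_same]
      linear_combination -(h2 (s i)) - h2 1
    · rw [Pi.single_eq_of_ne hkj, Pi.single_eq_of_ne hkj, Pi.single_eq_of_ne hkj]
      by_cases hki : k = i
      · subst hki
        rw [Pi.single_eq_same]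
        linear_combination -(h2 1)
      · rw [Pi.single_eq_of_ne hki]
        ring
  rw [h1, map_mul, map_mul, map_mul]
  have h3 : ∀ a b : ℤˣ, a * b * a * b = 1 := by decide
  exact h3 _ _

theorem sign_tr (a : Fin 5 → ZMod 2) : sign (tr a) = 1 := by
  have h1 : a = ∑ j, (if a j = 0 then (0 : Fin 5 → ZMod 2) else Pi.single j 1) := by
    funext k
    rw [Finset.sum_apply, Finset.sum_eq_single k]
    · by_cases h : a k = 0
      · rw [if_pos h, h]; rfl
      · rw [if_neg h, Pi.single_eq_same]
        have h2 : ∀ x : ZMod 2, x ≠ 0 → x = 1 := by decide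
        exact h2 _ h
    · intro j _ hj
      by_cases h : a j = 0
      · rw [if_pos h]; rfl
      · rw [if_neg h, Pi.single_eq_of_ne hj.symm]
    · intro h; exact absurd (Finset.mem_univ _) h
  have h0 : sign (tr 0) = 1 := by
    have : tr 0 = 1 := by
      ext1 s
      rw [tr_apply, add_zero]; rfl
    rw [this, map_one]
  have h3 : ∀ (t : Finset (Fin 5)) (f : Fin 5 → Fin 5 → ZMod 2), (∀ j, sign (tr (f j)) = 1) →
      sign (tr (∑ j ∈ t, f j)) = 1 := by
    intro t f hf
    induction t using Finset.induction_on with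
    | empty => rw [Finset.sum_empty, h0]
    | insert a t ha ih => rw [Finset.sum_insert ha, tr_add, map_mul, hf, ih, one_mul]
  rw [h1]
  apply h3
  intro j
  by_cases h : a j = 0
  · rw [if_pos h, h0]
  · rw [if_neg h]
    exact sign_tr_single j

end Pool.Agent.EQ
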