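import Pool.Agent.EQ.Main

/-!
# The number of models in a field of odd characteristic
-/

set_option autoImplicit false

namespace Pool.Agent.EQ

open Equiv Equiv.Perm Pool.Agent.Helper94.SN

variable {M N n : ℕ}

/-! ### minimal dependent sets of equations -/

theorem lhs_add (T : Fin M → Fin 5 → Fin N) (z z' : Fin N → ZMod 2) (q : Fin M) :
    lhs T (z + z') q = lhs T z q + lhs T z' q := by
  simp only [lhs, Pi.add_apply, Finset.sum_add_distrib]

theorem lhs_smul (T : Fin M → Fin 5 → Fin N) (c : ZMod 2) (z : Fin N → ZMod 2) (q : Fin M) :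
    lhs T (c • z) q = c * lhs T z q := by
  simp only [lhs, Pi.smul_apply, smul_eq_mul, Finset.mul_sum]

/-- the left hand sides of the equations in `F` add up to zero -/
def Dep (T : Fin M → Fin 5 → Fin N) (F : Finset (Fin M)) : Prop :=
  F.Nonempty ∧ ∀ z, ∑ q ∈ F, lhs T z q = 0

theorem exists_dep (T : Fin M → Fin 5 → Fin N) (h : N < M) : ∃ F, Dep T F := by
  classical
  set Λ : (Fin M → ZMod 2) →ₗ[ZMod 2] (Fin N → ZMod 2) :=
    ∑ q, ∑ i, (LinearMap.single (ZMod 2) (fun _ : Fin N => ZMod 2) (T q i)).comp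
      (LinearMap.proj q) with hΛ
  have h1 : LinearMap.ker Λ ≠ ⊥ := by
    apply LinearMap.ker_ne_bot_of_finrank_lt
    rw [Module.finrank_fintype_fun_eq_card, Module.finrank_fintype_fun_eq_card, Fintype.card_fin,
      Fintype.card_fin]
    exact h
  obtain ⟨l, hl, hl0⟩ := Submodule.exists_mem_ne_zero_of_ne_bot h1
  rw [LinearMap.mem_ker] at hl
  have h2 : ∀ z : Fin N → ZMod 2, ∑ q, l q * lhs T z q = 0 := by
    intro z
    have h3 : dotProduct (Λ l) z = 0 := by rw [hl, zero_dotProduct]
    rw [← h3, hΛ]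
    simp only [LinearMap.sum_apply, LinearMap.comp_apply, LinearMap.proj_apply,
      sum_dotProduct, LinearMap.single_apply]
    apply Finset.sum_congr rfl
    intro q _
    rw [lhs, Finset.mul_sum]
    apply Finset.sum_congr rfl
    intro i _
    rw [single_dotProduct]
  refine ⟨Finset.univ.filter fun q => l q ≠ 0, ?_, ?_⟩
  · obtain ⟨q, hq⟩ : ∃ q, l q ≠ 0 := by
      by_contra h4
      push Not at h4
      exact hl0 (funext h4)
    exact ⟨q, Finset.mem_filter.2 ⟨Finset.mem_univ _, hq⟩⟩
  · intro z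
    have h5 : ∑ q ∈ Finset.univ.filter (fun q => l q ≠ 0), lhs T z q = ∑ q, l q * lhs T z q := by
      rw [Finset.sum_filter]
      apply Finset.sum_congr rfl
      intro q _
      rcases zmod_two (l q) with h4 | h4
      · rw [h4, zero_mul, if_neg (fun h => h rfl)]
      · rw [h4, one_mul, if_pos one_ne_zero]
    rw [h5, h2]

/-- a minimal dependent set of equations: smaller sets of equations are solvable for every right
hand side -/
theorem exists_circuit (T : Fin M → Fin 5 → Fin N) (h : N < M) :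
    ∃ F, Dep T F ∧ ∀ W : Finset (Fin M), W.card < F.card → ∀ b : Fin M → ZMod 2,
      ∃ z, ∀ q ∈ W, lhs T z q = b q := by
  classical
  obtain ⟨F₀, hF₀⟩ := exists_dep T h
  set S : Finset (Finset (Fin M)) := Finset.univ.filter fun F => Dep T F with hS
  obtain ⟨F, hF, hmin⟩ := Finset.exists_min_image S Finset.card
    ⟨F₀, Finset.mem_filter.2 ⟨Finset.mem_univ _, hF₀⟩⟩
  refine ⟨F, (Finset.mem_filter.1 hF).2, ?_⟩
  intro W hW b
  by_contra hcon
  set φ : (Fin N → ZMod 2) →ₗ[ZMod 2] (Fin M → ZMod 2) :=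
    { toFun := fun z q => if q ∈ W then lhs T z q else 0
      map_add' := fun z z' => by
        funext q
        by_cases hq : q ∈ W
        · simp only [Pi.add_apply, if_pos hq, lhs_add]
        · simp only [Pi.add_apply, if_neg hq, add_zero]
      map_smul' := fun c z => by
        funext q
        by_cases hq : q ∈ W
        · simp only [Pi.smul_apply, if_pos hq, lhs_smul, smul_eq_mul, RingHom.id_apply]
        · simp only [Pi.smul_apply, if_neg hq, smul_zero] } with hφ
  have h1 : (fun q => if q ∈ W then b q else 0) ∉ LinearMap.range φ := by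
    rintro ⟨z, hz⟩
    apply hcon
    refine ⟨z, ?_⟩
    intro q hq
    have h2 := congrFun hz q
    change (if q ∈ W then lhs T z q else 0) = (if q ∈ W then b q else 0) at h2
    rwa [if_pos hq, if_pos hq] at h2
  obtain ⟨t, h3, h4⟩ := exists_separating _ h1
  have h5 : ∀ c : Fin M → ZMod 2, dotProduct (fun q => if q ∈ W then c q else 0) t =
      ∑ q ∈ W.filter (fun q => t q ≠ 0), c q := by
    intro c
    rw [dotProduct, Finset.sum_filter, ← Finset.sum_filter_add_sum_filter_not Finset.univ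
      (fun q => q ∈ W)]
    rw [Finset.sum_eq_zero (s := Finset.univ.filter fun q => ¬ q ∈ W), add_zero]
    · have h6 : (Finset.univ.filter fun q => q ∈ W) = W := by
        ext q; simp
      rw [h6]
      apply Finset.sum_congr rfl
      intro q hq
      rw [if_pos hq]
      rcases zmod_two (t q) with h7 | h7
      · rw [h7, mul_zero, if_neg (fun h => h rfl)]
      · rw [h7, mul_one, if_pos one_ne_zero]
    · intro q hq
      rw [if_neg (Finset.mem_filter.1 hq).2, zero_mul]
  have h6 : Dep T (W.filter fun q => t q ≠ 0) := by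
    constructor
    · rw [h5] at h4
      by_contra h7
      rw [Finset.not_nonempty_iff_eq_empty] at h7
      rw [h7, Finset.sum_empty] at h4
      exact h4 rfl
    · intro z
      rw [← h5]
      exact h3 _ ⟨z, rfl⟩
  have h7 := hmin _ (Finset.mem_filter.2 ⟨Finset.mem_univ _, h6⟩)
  have h8 := Finset.card_filter_le W (fun q => t q ≠ 0)
  omega

/-! ### the masked instance -/

/-- unit clauses for the vertices that are not of the form `(q, s, c₀)` with `q ∈ F` -/
def mask (ι : Vert M ↪ Fin n) (F : Finset (Fin M)) (c₀ : Fin 16 × Bool) : Input n :=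
  fun e => decide (∃ u : Vert M, e = s(ι u, ι u) ∧ (u.1 ∉ F ∨ u.2.2 ≠ c₀))

theorem rename_mask (ι : Vert M ↪ Fin n) (F : Finset (Fin M)) (c₀ : Fin 16 × Bool)
    (a : Fin M × Fin 5 → ZMod 2) :
    rename ((tau a).viaEmbedding ι) (mask ι F c₀) = mask ι F c₀ := by
  funext e
  set σ := (tau a).viaEmbedding ι with hσ
  have hσι : ∀ u, σ (ι u) = ι (tau a u) := fun u => viaEmbedding_apply _ _ _
  unfold rename mask
  rw [decide_eq_decide]
  constructor
  · rintro ⟨u, hu, h⟩
    refine ⟨tau a u, ?_, h⟩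
    have h1 : Sym2.map σ (Sym2.map σ.symm e) = Sym2.map σ s(ι u, ι u) := by rw [hu]
    rw [Sym2.map_map] at h1
    have h2 : (⇑σ) ∘ (⇑σ.symm) = id := Equiv.self_comp_symm _
    rw [h2, Sym2.map_id, id, Sym2.map_mk, hσι] at h1
    exact h1
  · rintro ⟨u, hu, h⟩
    refine ⟨(tau a).symm u, ?_, h⟩
    rw [hu, Sym2.map_mk]
    have h1 : σ.symm (ι u) = ι ((tau a).symm u) := by
      rw [Equiv.symm_apply_eq, hσι, Equiv.apply_symm_apply]
    rw [h1]

/-- the masked instance -/
def minst (T : Fin M → Fin 5 → Fin N) (ι : Vert M ↪ Fin n) (F : Finset (Fin M))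
    (c₀ : Fin 16 × Bool) (b : Fin M → ZMod 2) : Input n :=
  fun e => inst T ι b e || mask ι F c₀ e

/-- the models of the masked instance -/
structure IsMod (T : Fin M → Fin 5 → Fin N) (ι : Vert M ↪ Fin n) (F : Finset (Fin M))
    (c₀ : Fin 16 × Bool) (b : Fin M → ZMod 2) (x : Fin n → Bool) : Prop where
  mask : ∀ u : Vert M, x (ι u) = false → u.1 ∈ F ∧ u.2.2 = c₀
  conf : ∀ u v : Vert M, Conf T u v → x (ι u) = false → x (ι v) = true
  rhs : ∀ u : Vert M, x (ι u) = false → ∑ i, u.2.1 i = b u.1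

theorem isMod_iff (T : Fin M → Fin 5 → Fin N) (ι : Vert M ↪ Fin n) (F : Finset (Fin M))
    (c₀ : Fin 16 × Bool) (b : Fin M → ZMod 2) (x : Fin n → Bool) :
    (∀ i j, minst T ι F c₀ b s(i, j) = true → (x i = true ∨ x j = true)) ↔
      IsMod T ι F c₀ b x := by
  constructor
  · intro h
    refine ⟨?_, ?_, ?_⟩
    · intro u hu
      by_contra h1
      have h2 : minst T ι F c₀ b s(ι u, ι u) = true := by
        unfold minst mask
        rw [Bool.or_eq_true]
        right
        rw [decide_eq_true_eq]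
        refine ⟨u, rfl, ?_⟩
        tauto
      rcases h _ _ h2 with h3 | h3 <;> rw [hu] at h3 <;> exact absurd h3 (by decide)
    · intro u v huv hu
      have h2 : minst T ι F c₀ b s(ι u, ι v) = true := by
        unfold minst inst
        rw [Bool.or_eq_true]
        left
        rw [decide_eq_true_eq]
        exact ⟨u, v, rfl, Or.inl huv⟩
      rcases h _ _ h2 with h3 | h3
      · rw [hu] at h3; exact absurd h3 (by decide)
      · exact h3
    · intro u hu
      by_contra h1
      have h2 : minst T ι F c₀ b s(ι u, ι u) = true := by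
        unfold minst inst
        rw [Bool.or_eq_true]
        left
        rw [decide_eq_true_eq]
        exact ⟨u, u, rfl, Or.inr ⟨rfl, h1⟩⟩
      rcases h _ _ h2 with h3 | h3 <;> rw [hu] at h3 <;> exact absurd h3 (by decide)
  · intro h i j hij
    unfold minst inst mask at hij
    rw [Bool.or_eq_true, decide_eq_true_eq, decide_eq_true_eq] at hij
    by_contra hcon
    push Not at hcon
    simp only [ne_eq, Bool.not_eq_true] at hcon
    rcases hij with ⟨u, v, he, h1⟩ | ⟨u, he, h1⟩
    · rcases Sym2.eq_iff.1 he with ⟨h2, h3⟩ | ⟨h2, h3⟩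
      · rw [h2, h3] at hcon
        rcases h1 with h1 | ⟨h1, h4⟩
        · have := h.conf u v h1 hcon.1
          rw [hcon.2] at this; exact absurd this (by decide)
        · exact h4 (h.rhs u hcon.1)
      · rw [h2, h3] at hcon
        rcases h1 with h1 | ⟨h1, h4⟩
        · have := h.conf u v h1 hcon.2
          rw [hcon.1] at this; exact absurd this (by decide)
        · exact h4 (h.rhs u hcon.2)
    · have h2 : x (ι u) = false := by
        rcases Sym2.eq_iff.1 he with ⟨h2, h3⟩ | ⟨h2, h3⟩
        · rw [← h2]; exact hcon.1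
        · rw [← h2]; exact hcon.1
      have := h.mask u h2
      tauto

/-- the equations in which a vertex is chosen -/
def used (ι : Vert M ↪ Fin n) (c₀ : Fin 16 × Bool) (x : Fin n → Bool) : Finset (Fin M) :=
  Finset.univ.filter fun q => ∃ s, x (ι (q, s, c₀)) = false

theorem mem_used {ι : Vert M ↪ Fin n} {c₀ : Fin 16 × Bool} {x : Fin n → Bool} {q : Fin M} :
    q ∈ used ι c₀ x ↔ ∃ s, x (ι (q, s, c₀)) = false := by
  unfold used
  rw [Finset.mem_filter]
  exact ⟨fun h => h.2, fun h => ⟨Finset.mem_univ _, h⟩⟩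

theorem used_subset {T : Fin M → Fin 5 → Fin N} {ι : Vert M ↪ Fin n} {F : Finset (Fin M)}
    {c₀ : Fin 16 × Bool} {b : Fin M → ZMod 2} {x : Fin n → Bool} (h : IsMod T ι F c₀ b x) :
    used ι c₀ x ⊆ F := by
  intro q hq
  obtain ⟨s, hs⟩ := mem_used.1 hq
  exact (h.mask _ hs).1

/-- composition with the shift of the variables -/
noncomputable def flipBy (T : Fin M → Fin 5 → Fin N) (ι : Vert M ↪ Fin n) (z : Fin N → ZMod 2)
    (x : Fin n → Bool) : Fin n → Bool := fun i => x (act T ι z i)

theorem flipBy_flipBy (T : Fin M → Fin 5 → Fin N) (ι : Vert M ↪ Fin n) (z : Fin N → ZMod 2)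
    (x : Fin n → Bool) : flipBy T ι z (flipBy T ι z x) = x := by
  funext i
  unfold flipBy
  have h := DFunLike.congr_fun (act_mul_act T ι z) i
  rw [Perm.mul_apply, Perm.one_apply] at h
  rw [h]

theorem used_flipBy (T : Fin M → Fin 5 → Fin N) (ι : Vert M ↪ Fin n) (z : Fin N → ZMod 2)
    (c₀ : Fin 16 × Bool) (x : Fin n → Bool) : used ι c₀ (flipBy T ι z x) = used ι c₀ x := by
  ext q
  rw [mem_used, mem_used]
  constructor
  · rintro ⟨s, hs⟩
    unfold flipBy at hs
    rw [act_apply] at hs
    exact ⟨_, hs⟩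
  · rintro ⟨s, hs⟩
    refine ⟨s + (fun i => z (T q i)), ?_⟩
    unfold flipBy
    rw [act_apply]
    change x (ι (q, s + (fun i => z (T q i)) + (fun i => z (T q i)), c₀)) = false
    rw [add_add_cancel_two]
    exact hs

theorem isMod_flipBy {T : Fin M → Fin 5 → Fin N} {ι : Vert M ↪ Fin n} {F : Finset (Fin M)}
    {c₀ : Fin 16 × Bool} {b b' : Fin M → ZMod 2} {x : Fin n → Bool} (h : IsMod T ι F c₀ b x)
    {z : Fin N → ZMod 2} (hz : ∀ q ∈ used ι c₀ x, b q = b' q + lhs T z q) :
    IsMod T ι F c₀ b' (flipBy T ι z x) := by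
  refine ⟨?_, ?_, ?_⟩
  · intro u hu
    unfold flipBy at hu
    rw [act_apply] at hu
    exact h.mask (shift T z u) hu
  · intro u v huv hu
    unfold flipBy at hu ⊢
    rw [act_apply] at hu ⊢
    exact h.conf _ _ ((conf_shift T z u v).2 huv) hu
  · intro u hu
    unfold flipBy at hu
    rw [act_apply] at hu
    have h1 := h.rhs _ hu
    rw [sum_shift] at h1
    have h2 : u.1 ∈ used ι c₀ x := by
      rw [mem_used]
      refine ⟨(shift T z u).2.1, ?_⟩
      have h3 := (h.mask _ hu).2
      rw [← h3]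
      exact hu
    have h4 : ∑ i, u.2.1 i + lhs T z u.1 = b' u.1 + lhs T z u.1 := h1.trans (hz u.1 h2)
    exact add_right_cancel h4

/-- if a vertex is chosen in every equation of `F` the right hand sides satisfy the dependency -/
theorem sum_rhs {T : Fin M → Fin 5 → Fin N} {ι : Vert M ↪ Fin n} {F : Finset (Fin M)}
    (hF : Dep T F) {c₀ : Fin 16 × Bool} {b : Fin M → ZMod 2} {x : Fin n → Bool}
    (h : IsMod T ι F c₀ b x) (hu : used ι c₀ x = F) : ∑ q ∈ F, b q = 0 := by
  classical
  have h1 : ∀ q, ∃ s, q ∈ F → x (ι (q, s, c₀)) = false := by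
    intro q
    by_cases hq : q ∈ F
    · rw [← hu] at hq
      obtain ⟨s, hs⟩ := mem_used.1 hq
      exact ⟨s, fun _ => hs⟩
    · exact ⟨0, fun h' => absurd h' hq⟩
  choose s hs using h1
  set z : Fin N → ZMod 2 := fun v =>
    if h : ∃ p : Fin M × Fin 5, p.1 ∈ F ∧ T p.1 p.2 = v then s h.choose.1 h.choose.2 else 0 with hz
  have h2 : ∀ q ∈ F, ∀ i, z (T q i) = s q i := by
    intro q hq i
    have h3 : ∃ p : Fin M × Fin 5, p.1 ∈ F ∧ T p.1 p.2 = T q i := ⟨(q, i), hq, rfl⟩
    have h4 : z (T q i) = s h3.choose.1 h3.choose.2 := dif_pos h3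
    rw [h4]
    by_contra h5
    have h6 : Conf T (h3.choose.1, s h3.choose.1, c₀) (q, s q, c₀) :=
      ⟨h3.choose.2, i, h3.choose_spec.2, h5⟩
    have h7 := h.conf _ _ h6 (hs _ h3.choose_spec.1)
    rw [hs q hq] at h7
    exact absurd h7 (by decide)
  rw [← hF.2 z]
  apply Finset.sum_congr rfl
  intro q hq
  have h8 := h.rhs _ (hs q hq)
  rw [← h8, lhs]
  apply Finset.sum_congr rfl
  intro i _
  exact (h2 q hq i).symm

/-! ### the number of models in which every equation of `F` is used -/

/-- the consistent families of values for the right hand side `0` -/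
def consistent (T : Fin M → Fin 5 → Fin N) (F : Finset (Fin M)) :
    Submodule (ZMod 2) (Fin M → Fin 5 → ZMod 2) where
  carrier := {s | (∀ q, q ∉ F → s q = 0) ∧ (∀ q ∈ F, ∑ i, s q i = 0) ∧
    ∀ q ∈ F, ∀ q' ∈ F, ∀ i j, T q i = T q' j → s q i = s q' j}
  add_mem' := by
    rintro s t ⟨h1, h2, h3⟩ ⟨h4, h5, h6⟩
    refine ⟨?_, ?_, ?_⟩
    · intro q hq
      rw [Pi.add_apply, h1 q hq, h4 q hq, add_zero]
    · intro q hq
      simp only [Pi.add_apply, Finset.sum_add_distrib]
      rw [h2 q hq, h5 q hq, add_zero]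
    · intro q hq q' hq' i j hij
      simp only [Pi.add_apply]
      rw [h3 q hq q' hq' i j hij, h6 q hq q' hq' i j hij]
  zero_mem' := by
    refine ⟨fun _ _ => rfl, ?_, fun _ _ _ _ _ _ _ => rfl⟩
    intro q _
    simp
  smul_mem' := by
    rintro c s ⟨h1, h2, h3⟩
    refine ⟨?_, ?_, ?_⟩
    · intro q hq
      rw [Pi.smul_apply, h1 q hq, smul_zero]
    · intro q hq
      simp only [Pi.smul_apply]
      rw [← Finset.smul_sum, h2 q hq, smul_zero]
    · intro q hq q' hq' i j hij
      simp only [Pi.smul_apply]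
      rw [h3 q hq q' hq' i j hij]

theorem card_consistent (T : Fin M → Fin 5 → Fin N) (F : Finset (Fin M)) :
    ∃ k, Nat.card (consistent T F) = 2 ^ k := by
  refine ⟨Module.finrank (ZMod 2) (consistent T F), ?_⟩
  rw [Module.natCard_eq_pow_finrank (K := ZMod 2), Nat.card_zmod]

/-- two vertices of the same equation with different values contradict each other -/
theorem conf_same (T : Fin M → Fin 5 → Fin N) (q : Fin M) {s s' : Fin 5 → ZMod 2} (h : s ≠ s')
    (c c' : Fin 16 × Bool) : Conf T (q, s, c) (q, s', c') := by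
  obtain ⟨i, hi⟩ := Function.ne_iff.1 h
  exact ⟨i, i, rfl, hi⟩

theorem card_used_eq (T : Fin M → Fin 5 → Fin N) (ι : Vert M ↪ Fin n) (F : Finset (Fin M))
    (c₀ : Fin 16 × Bool) :
    ∃ k, Nat.card {x : Fin n → Bool // IsMod T ι F c₀ 0 x ∧ used ι c₀ x = F} = 2 ^ k := by
  classical
  obtain ⟨k, hk⟩ := card_consistent T F
  have h1 : ∀ p : {x : Fin n → Bool // IsMod T ι F c₀ 0 x ∧ used ι c₀ x = F}, ∀ q, ∃ s,
      (q ∈ F → p.1 (ι (q, s, c₀)) = false) ∧ (q ∉ F → s = 0) := by
    intro p q
    by_cases hq : q ∈ F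
    · have hq' := hq
      rw [← p.2.2] at hq'
      obtain ⟨s, hs⟩ := mem_used.1 hq'
      exact ⟨s, fun _ => hs, fun h => absurd hq h⟩
    · exact ⟨0, fun h => absurd h hq, fun _ => rfl⟩
  choose s hs1 hs2 using h1
  have hs3 : ∀ p q t, q ∈ F → p.1 (ι (q, t, c₀)) = false → t = s p q := by
    intro p q t hq ht
    by_contra h
    have h2 := p.2.1.conf _ _ (conf_same T q h c₀ c₀) ht
    rw [hs1 p q hq] at h2
    exact absurd h2 (by decide)
  have hsc : ∀ p, s p ∈ consistent T F := by
    intro p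
    refine ⟨fun q hq => hs2 p q hq, ?_, ?_⟩
    · intro q hq
      exact p.2.1.rhs _ (hs1 p q hq)
    · intro q hq q' hq' i j hij
      by_contra h
      have h2 := p.2.1.conf (q, s p q, c₀) (q', s p q', c₀) ⟨i, j, hij, h⟩ (hs1 p q hq)
      rw [hs1 p q' hq'] at h2
      exact absurd h2 (by decide)
  have e : {x : Fin n → Bool // IsMod T ι F c₀ 0 x ∧ used ι c₀ x = F} ≃
      (consistent T F) × ({i : Fin n // i ∉ Set.range ι} → Bool) := by
    refine Equiv.ofBijective (fun p => (⟨s p, hsc p⟩, fun i => p.1 i.1)) ⟨?_, ?_⟩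
    · intro p p' hpp
      have h3 : s p = s p' := congrArg Subtype.val (Prod.ext_iff.1 hpp).1
      have h4 := (Prod.ext_iff.1 hpp).2
      apply Subtype.ext
      funext i
      by_cases hi : i ∈ Set.range ι
      · obtain ⟨u, rfl⟩ := hi
        -- both are determined by `s`
        have h5 : ∀ p : {x : Fin n → Bool // IsMod T ι F c₀ 0 x ∧ used ι c₀ x = F},
            p.1 (ι u) = false ↔ (u.1 ∈ F ∧ u.2.2 = c₀ ∧ u.2.1 = s p u.1) := by
          intro p
          constructor
          · intro h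
            have h6 := p.2.1.mask u h
            refine ⟨h6.1, h6.2, ?_⟩
            apply hs3 p u.1 u.2.1 h6.1
            have h9 : (u.1, u.2.1, c₀) = u := Prod.ext rfl (Prod.ext rfl h6.2.symm)
            rw [h9]
            exact h
          · rintro ⟨h6, h7, h8⟩
            have h9 : u = (u.1, s p u.1, c₀) := Prod.ext rfl (Prod.ext h8 h7)
            rw [h9]
            exact hs1 p u.1 h6
        have h10 : p.1 (ι u) = false ↔ p'.1 (ι u) = false := by
          rw [h5, h5, h3]
        cases h11 : p.1 (ι u)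
        · exact (h10.1 h11).symm
        · cases h12 : p'.1 (ι u)
          · rw [h10.2 h12] at h11; exact h11.symm
          · rfl
      · exact congrFun h4 ⟨i, hi⟩
    · rintro ⟨⟨t, ht⟩, g⟩
      set x : Fin n → Bool := fun i => if h : i ∈ Set.range ι then
        !decide (h.choose.1 ∈ F ∧ h.choose.2.2 = c₀ ∧ h.choose.2.1 = t h.choose.1)
        else g ⟨i, h⟩ with hx
      have hxι : ∀ u : Vert M, x (ι u) = !decide (u.1 ∈ F ∧ u.2.2 = c₀ ∧ u.2.1 = t u.1) := by
        intro u
        have h3 : ι u ∈ Set.range ι := ⟨u, rfl⟩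
        have h4 : h3.choose = u := ι.injective h3.choose_spec
        have h5 : x (ι u) = !decide (h3.choose.1 ∈ F ∧ h3.choose.2.2 = c₀ ∧
            h3.choose.2.1 = t h3.choose.1) := dif_pos h3
        rw [h5, h4]
      have hxf : ∀ u : Vert M, x (ι u) = false ↔ (u.1 ∈ F ∧ u.2.2 = c₀ ∧ u.2.1 = t u.1) := by
        intro u
        rw [hxι, Bool.not_eq_false', decide_eq_true_eq]
      have hmod : IsMod T ι F c₀ 0 x := by
        refine ⟨?_, ?_, ?_⟩
        · intro u hu
          have := (hxf u).1 hu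
          exact ⟨this.1, this.2.1⟩
        · rintro u v ⟨i, j, h3, h4⟩ hu
          by_contra h5
          rw [Bool.not_eq_true] at h5
          have h6 := (hxf u).1 hu
          have h7 := (hxf v).1 h5
          apply h4
          rw [h6.2.2, h7.2.2]
          exact ht.2.2 _ h6.1 _ h7.1 i j h3
        · intro u hu
          have h6 := (hxf u).1 hu
          rw [h6.2.2]
          exact ht.2.1 _ h6.1
      have hused : used ι c₀ x = F := by
        ext q
        rw [mem_used]
        constructor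
        · rintro ⟨a, ha⟩
          exact ((hxf _).1 ha).1
        · intro hq
          exact ⟨t q, (hxf _).2 ⟨hq, rfl, rfl⟩⟩
      refine ⟨⟨x, hmod, hused⟩, ?_⟩
      refine Prod.ext ?_ ?_
      · apply Subtype.ext
        funext q
        by_cases hq : q ∈ F
        · have h8 := (hxf _).1 (hs1 ⟨x, hmod, hused⟩ q hq)
          exact h8.2.2
        · change s ⟨x, hmod, hused⟩ q = t q
          rw [hs2 _ q hq, ht.1 q hq]
      · funext i
        exact dif_neg i.2
  refine ⟨k + Nat.card {i : Fin n // i ∉ Set.range ι}, ?_⟩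
  rw [Nat.card_congr e, Nat.card_prod, hk, Nat.card_fun, pow_add]
  congr 1
  rw [Nat.card_eq_fintype_card, Fintype.card_bool]

/-- the two numbers of models differ by a power of two -/
theorem models_minst {T : Fin M → Fin 5 → Fin N} (ι : Vert M ↪ Fin n) {F : Finset (Fin M)}
    (hF : Dep T F)
    (hmin : ∀ W : Finset (Fin M), W.card < F.card → ∀ b : Fin M → ZMod 2,
      ∃ z, ∀ q ∈ W, lhs T z q = b q)
    (c₀ : Fin 16 × Bool) {q₀ : Fin M} (hq₀ : q₀ ∈ F) :
    ∃ k, models n (minst T ι F c₀ 0) = models n (minst T ι F c₀ (Pi.single q₀ 1)) + 2 ^ k := by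
  classical
  obtain ⟨k, hk⟩ := card_used_eq T ι F c₀
  refine ⟨k, ?_⟩
  have hmod : ∀ b, models n (minst T ι F c₀ b) = Nat.card {x : Fin n → Bool // IsMod T ι F c₀ b x} := by
    intro b
    unfold models
    rw [← Nat.card_eq_fintype_card]
    exact Nat.card_congr (Equiv.subtypeEquivRight (isMod_iff T ι F c₀ b))
  rw [hmod, hmod, ← hk]
  -- solutions on the smaller sets
  have h1 : ∀ W : Finset (Fin M), ∃ z : Fin N → ZMod 2, W ⊆ F → W ≠ F →
      ∀ q ∈ W, lhs T z q = (Pi.single q₀ 1 : Fin M → ZMod 2) q := by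
    intro W
    by_cases h : W ⊆ F ∧ W ≠ F
    · obtain ⟨z, hz⟩ := hmin W (Finset.card_lt_card (h.1.ssubset_of_ne h.2)) (Pi.single q₀ 1)
      exact ⟨z, fun _ _ => hz⟩
    · exact ⟨0, fun h2 h3 => absurd ⟨h2, h3⟩ h⟩
  choose z hz using h1
  have hne : ∀ x, IsMod T ι F c₀ (Pi.single q₀ 1) x → used ι c₀ x ≠ F := by
    intro x hx hu
    have h2 := sum_rhs hF hx hu
    rw [Finset.sum_pi_single', if_pos hq₀] at h2
    exact one_ne_zero h2
  have e : {x : Fin n → Bool // IsMod T ι F c₀ (Pi.single q₀ 1) x} ≃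
      {x : Fin n → Bool // IsMod T ι F c₀ 0 x ∧ used ι c₀ x ≠ F} := by
    refine ⟨fun x => ⟨flipBy T ι (z (used ι c₀ x.1)) x.1, ?_, ?_⟩,
      fun x => ⟨flipBy T ι (z (used ι c₀ x.1)) x.1, ?_⟩, ?_, ?_⟩
    · apply isMod_flipBy x.2
      intro q hq
      rw [hz _ (used_subset x.2) (hne _ x.2) q hq, Pi.zero_apply, zero_add]
    · rw [used_flipBy]
      exact hne _ x.2
    · apply isMod_flipBy x.2.1
      intro q hq
      rw [hz _ (used_subset x.2.1) x.2.2 q hq, Pi.zero_apply, CharTwo.add_self_eq_zero]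
    · intro x
      apply Subtype.ext
      simp only [used_flipBy, flipBy_flipBy]
    · intro x
      apply Subtype.ext
      simp only [used_flipBy, flipBy_flipBy]
  rw [Nat.card_congr e]
  have h3 : Nat.card {x : Fin n → Bool // IsMod T ι F c₀ 0 x} =
      Nat.card {x : Fin n → Bool // IsMod T ι F c₀ 0 x ∧ used ι c₀ x ≠ F} +
      Nat.card {x : Fin n → Bool // IsMod T ι F c₀ 0 x ∧ used ι c₀ x = F} := by
    rw [Nat.card_eq_fintype_card, Nat.card_eq_fintype_card, Nat.card_eq_fintype_card,
      Fintype.card_subtype, Fintype.card_subtype, Fintype.card_subtype]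
    rw [← Finset.card_filter_add_card_filter_not (s := Finset.univ.filter fun x : Fin n → Bool =>
      IsMod T ι F c₀ 0 x) (fun x => used ι c₀ x ≠ F)]
    rw [Finset.filter_filter, Finset.filter_filter]
    simp only [not_not]
  exact h3

end Pool.Agent.EQ
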