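import Pool.Agent.EQ.Dim
import Pool.Agent.Helper94.SN.Main

/-!
# The twisted instances
-/

set_option autoImplicit false

namespace Pool.Agent.EQ

open Equiv Equiv.Perm Pool.Agent.Helper94.SN

variable {M N n : ℕ}

theorem rename_mul (g h : Perm (Fin n)) (y : Input n) :
    rename (g * h) y = rename g (rename h y) := by
  funext e
  change y (Sym2.map (g * h).symm e) = y (Sym2.map h.symm (Sym2.map g.symm e))
  rw [Sym2.map_map]
  rfl

theorem rename_one (y : Input n) : rename 1 y = y := by
  funext e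
  change y (Sym2.map id e) = y e
  rw [Sym2.map_id, id]

/-- the index set of the twists: incidences of variables in equations, and equations -/
abbrev Tw (M : ℕ) : Type := (Fin M × Fin 5) ⊕ Fin M

/-- the instance with twist `x` -/
noncomputable def fam (T : Fin M → Fin 5 → Fin N) (ι : Vert M ↪ Fin n) (x : Tw M → ZMod 2) :
    Input n :=
  rename ((tau fun p => x (Sum.inl p)).viaEmbedding ι) (inst T ι fun q => x (Sum.inr q))

theorem fam_add {T : Fin M → Fin 5 → Fin N} {ι : Vert M ↪ Fin n} (x : Tw M → ZMod 2)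
    (a : Fin M × Fin 5 → ZMod 2) :
    fam T ι (x + Sum.elim a 0) = rename ((tau a).viaEmbedding ι) (fam T ι x) := by
  unfold fam
  rw [← rename_mul]
  have h1 : (fun p => (x + (Sum.elim a 0 : Tw M → ZMod 2)) (Sum.inl p)) =
      a + fun p => x (Sum.inl p) := by
    funext p
    simp only [Pi.add_apply, Sum.elim_inl]
    ring
  have h2 : (fun q => (x + (Sum.elim a 0 : Tw M → ZMod 2)) (Sum.inr q)) =
      fun q => x (Sum.inr q) := by
    funext q
    simp only [Pi.add_apply, Sum.elim_inr, Pi.zero_apply, add_zero]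
  have h3 : viaEmbeddingHom ι (tau (a + fun p => x (Sum.inl p))) =
      viaEmbeddingHom ι (tau a) * viaEmbeddingHom ι (tau fun p => x (Sum.inl p)) := by
    rw [tau_add, map_mul]
  rw [h1, h2]
  change rename (viaEmbeddingHom ι _) _ = _
  rw [h3]
  rfl

/-- the vector that changes the value of the variables in `z` everywhere -/
def per (T : Fin M → Fin 5 → Fin N) (z : Fin N → ZMod 2) : Tw M → ZMod 2 :=
  Sum.elim (fun p => z (T p.1 p.2)) (lhs T z)

theorem rename_act (T : Fin M → Fin 5 → Fin N) (ι : Vert M ↪ Fin n) (z : Fin N → ZMod 2)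
    (b : Fin M → ZMod 2) : rename (act T ι z) (inst T ι b) = inst T ι (b + lhs T z) := by
  funext e
  change inst T ι b (Sym2.map (act T ι z).symm e) = _
  rw [← inst_act T ι z b, Sym2.map_map]
  congr 1
  have h1 : (⇑(act T ι z)) ∘ (⇑(act T ι z).symm) = id := Equiv.self_comp_symm _
  rw [h1, Sym2.map_id, id]

theorem act_mul_act (T : Fin M → Fin 5 → Fin N) (ι : Vert M ↪ Fin n) (z : Fin N → ZMod 2) :
    act T ι z * act T ι z = 1 := by
  have h1 : act T ι z = viaEmbeddingHom ι (shift T z) := rfl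
  rw [h1, ← map_mul]
  have h2 : shift T z * shift T z = 1 := by
    ext1 u
    rw [Perm.mul_apply]
    exact (shift T z).left_inv u
  rw [h2, map_one]

theorem fam_per (T : Fin M → Fin 5 → Fin N) (ι : Vert M ↪ Fin n) (x : Tw M → ZMod 2)
    (z : Fin N → ZMod 2) : fam T ι (x + per T z) = fam T ι x := by
  unfold fam
  have h1 : (fun p => (x + per T z) (Sum.inl p)) =
      (fun p => x (Sum.inl p)) + fun p : Fin M × Fin 5 => z (T p.1 p.2) := rfl
  have h2 : (fun q => (x + per T z) (Sum.inr q)) = (fun q => x (Sum.inr q)) + lhs T z := rfl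
  rw [h1, h2, ← rename_act, ← rename_mul]
  have h3 : tau ((fun p => x (Sum.inl p)) + fun p : Fin M × Fin 5 => z (T p.1 p.2)) =
      tau (fun p => x (Sum.inl p)) * shift T z := by
    rw [tau_add]; rfl
  have h4 : (tau ((fun p => x (Sum.inl p)) +
      fun p : Fin M × Fin 5 => z (T p.1 p.2))).viaEmbedding ι * act T ι z =
      (tau fun p => x (Sum.inl p)).viaEmbedding ι := by
    change viaEmbeddingHom ι _ * act T ι z = _
    rw [h3, map_mul, mul_assoc]
    change _ * (act T ι z * act T ι z) = _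
    rw [act_mul_act, mul_one]; rfl
  rw [h4]

/-- the equations of the vertices in the clause `e` -/
noncomputable def eqs (ι : Vert M ↪ Fin n) (e : Sym2 (Fin n)) : Finset (Fin M) := by
  classical
  exact Finset.univ.filter fun q => ∃ s c, ι (q, s, c) ∈ e

theorem mem_eqs {ι : Vert M ↪ Fin n} {e : Sym2 (Fin n)} {q : Fin M} :
    q ∈ eqs ι e ↔ ∃ s c, ι (q, s, c) ∈ e := by
  unfold eqs
  rw [Finset.mem_filter]
  exact ⟨fun h => h.2, fun h => ⟨Finset.mem_univ _, h⟩⟩

theorem card_eqs_le (ι : Vert M ↪ Fin n) (e : Sym2 (Fin n)) : (eqs ι e).card ≤ 2 := by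
  classical
  induction e using Sym2.ind with
  | _ x y =>
    have h1 : ∀ q ∈ eqs ι s(x, y), ∃ u : Vert M, u.1 = q ∧ (ι u = x ∨ ι u = y) := by
      intro q hq
      obtain ⟨a, c, h⟩ := mem_eqs.1 hq
      exact ⟨(q, a, c), rfl, Sym2.mem_iff.1 h⟩
    choose! u hu using h1
    have h2 : (eqs ι s(x, y)).card ≤ ({x, y} : Finset (Fin n)).card := by
      apply Finset.card_le_card_of_injOn (fun q => ι (u q))
      · intro q hq
        simp only [Finset.coe_insert, Finset.coe_singleton, Set.mem_insert_iff,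
          Set.mem_singleton_iff]
        exact (hu q hq).2
      · intro q hq q' hq' h
        rw [← (hu q hq).1, ← (hu q' hq').1, ι.injective h]
    exact h2.trans Finset.card_le_two

/-- a clause bit does not depend on the twists at other equations -/
theorem fam_local (T : Fin M → Fin 5 → Fin N) (ι : Vert M ↪ Fin n) (e : Sym2 (Fin n))
    (x t : Tw M → ZMod 2) (ht : ∀ q ∈ eqs ι e, (∀ i, t (Sum.inl (q, i)) = 0) ∧ t (Sum.inr q) = 0) :
    fam T ι (x + t) e = fam T ι x e := by
  set σ : Perm (Fin n) := (tau fun p => x (Sum.inl p)).viaEmbedding ι with hσ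
  set σ' : Perm (Fin n) := (tau fun p => (x + t) (Sum.inl p)).viaEmbedding ι with hσ'
  -- the two permutations agree at the preimages of the points of `e`
  have h1 : ∀ p ∈ e, σ'.symm p = σ.symm p := by
    intro p hp
    rw [Equiv.symm_apply_eq]
    by_cases hr : p ∈ Set.range ι
    · obtain ⟨u, rfl⟩ := hr
      obtain ⟨w, rfl⟩ := (tau fun p => x (Sum.inl p)).surjective u
      rw [← viaEmbedding_apply, ← hσ, Equiv.symm_apply_apply, hσ, viaEmbedding_apply, hσ',
        viaEmbedding_apply]
      congr 1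
      rw [tau_apply, tau_apply]
      refine Prod.ext rfl (Prod.ext ?_ rfl)
      have hq : w.1 ∈ eqs ι e := mem_eqs.2 ⟨_, _, hp⟩
      funext i
      simp only [Pi.add_apply, (ht _ hq).1 i, add_zero]
    · have h2 : σ p = p := viaEmbedding_apply_of_notMem _ _ _ hr
      have h3 : σ' p = p := viaEmbedding_apply_of_notMem _ _ _ hr
      have h4 : σ.symm p = p := by rw [Equiv.symm_apply_eq, h2]
      rw [h4, h3]
  have h5 : Sym2.map σ'.symm e = Sym2.map σ.symm e := Sym2.map_congr h1
  change inst T ι (fun q => (x + t) (Sum.inr q)) (Sym2.map σ'.symm e) =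
    inst T ι (fun q => x (Sum.inr q)) (Sym2.map σ.symm e)
  rw [h5]
  apply inst_congr
  intro u hu
  have h6 : ι ((tau fun p => x (Sum.inl p)) u) ∈ e := by
    have h7 : Sym2.map σ (Sym2.map σ.symm e) = Sym2.map σ s(ι u, ι u) := by rw [hu]
    rw [Sym2.map_map] at h7
    have h8 : (⇑σ) ∘ (⇑σ.symm) = id := Equiv.self_comp_symm _
    rw [h8, Sym2.map_id, id, Sym2.map_mk] at h7
    rw [h7, ← viaEmbedding_apply]
    exact Sym2.mem_mk_left _ _
  have hq : u.1 ∈ eqs ι e := mem_eqs.2 ⟨_, _, h6⟩
  simp only [Pi.add_apply, (ht _ hq).2, add_zero]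

/-- a family of instances with the properties that are used in the proof -/
structure IsFam (T : Fin M → Fin 5 → Fin N) (ι : Vert M ↪ Fin n)
    (Y : (Tw M → ZMod 2) → Input n) : Prop where
  add : ∀ (x : Tw M → ZMod 2) (a : Fin M × Fin 5 → ZMod 2),
    Y (x + (Sum.elim a 0 : Tw M → ZMod 2)) = rename ((tau a).viaEmbedding ι) (Y x)
  per : ∀ x z, Y (x + per T z) = Y x
  loc : ∀ (e : Sym2 (Fin n)) (x t : Tw M → ZMod 2),
    (∀ q ∈ eqs ι e, (∀ i, t (Sum.inl (q, i)) = 0) ∧ t (Sum.inr q) = 0) → Y (x + t) e = Y x e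

theorem isFam_fam (T : Fin M → Fin 5 → Fin N) (ι : Vert M ↪ Fin n) : IsFam T ι (fam T ι) where
  add x a := fam_add x a
  per x z := fam_per T ι x z
  loc e x t ht := fam_local T ι e x t ht

/-- additional clauses that are permuted by the translations do no harm -/
theorem isFam_mask (T : Fin M → Fin 5 → Fin N) (ι : Vert M ↪ Fin n) (U : Input n)
    (hU : ∀ a : Fin M × Fin 5 → ZMod 2, rename ((tau a).viaEmbedding ι) U = U) :
    IsFam T ι (fun x e => fam T ι x e || U e) where
  add x a := by
    funext e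
    have h1 := congrFun (hU a) e
    have h2 := congrFun (fam_add (T := T) (ι := ι) x a) e
    change (fam T ι (x + (Sum.elim a 0 : Tw M → ZMod 2)) e || U e) =
      (rename ((tau a).viaEmbedding ι) (fam T ι x) e || rename ((tau a).viaEmbedding ι) U e)
    rw [h1, h2]
  per x z := by
    funext e
    rw [fam_per]
  loc e x t ht := by
    rw [fam_local T ι e x t ht]

end Pool.Agent.EQ
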