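import Pool.Agent.EQ.Exact

/-!
# The number of models is not computed in any field of characteristic different from two
-/

set_option autoImplicit false

namespace Pool.Agent.EQ

open Equiv Equiv.Perm Pool.Agent.Helper94.SN

theorem exact_large (n m : ℕ) (β : Fin m × Fin 32 ↪ Fin n) (hm : 160 ≤ m) (K : Type) [Field K]
    (h2 : (2 : K) ≠ 0) (G : Subgroup (Perm (Fin n))) (hG : ContainsAlt β G) (k d : ℕ)
    (hk : 72900 * k ≤ m / 160) (hd : d < 2 ^ k) :
    ¬ Reg G d (1 : Representation K G (Unit → K)) (fun y _ => (models n y : K)) := by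
  classical
  intro hr
  have hmn : m * 32 ≤ n := by
    have := Fintype.card_le_of_embedding β
    rwa [Fintype.card_prod, Fintype.card_fin, Fintype.card_fin, Fintype.card_fin] at this
  have hk0 : 0 < k := by
    by_contra h
    have h1 := hr.card_le.2
    rw [Nat.card_eq_fintype_card, Fintype.card_unit] at h1
    have h3 : k = 0 := by omega
    rw [h3, pow_zero] at hd
    omega
  set N := m / 160 with hN
  have hNpos : 0 < N := by rw [hN]; omega
  have hNn : 160 * N ≤ m := by rw [hN]; exact Nat.mul_div_le m 160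
  obtain ⟨T, hT⟩ := exists_expander N hNpos
  obtain ⟨ι, hι⟩ := exists_emb (M := 5 * N) β (by omega)
  obtain ⟨F, hF, hmin⟩ := exists_circuit T (by omega)
  obtain ⟨q₀, hq₀⟩ := hF.1
  set c₀ : Fin 16 × Bool := (0, false) with hc₀
  have hY : IsFam T ι (fun x e => fam T ι x e || mask ι F c₀ e) :=
    isFam_mask T ι _ (rename_mask ι F c₀)
  have hconst := hr.fam_eq (hι G hG) T hY h2 hd hk0 (by
      intro h4
      rw [Sym2.card, Fintype.card_fin] at h4
      have h5 : n + 1 ≤ (n + 1).choose 2 := by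
        rw [Nat.choose_two_right, Nat.add_sub_cancel, Nat.le_div_iff_mul_le (by norm_num)]
        nlinarith
      by_contra h6
      have h7 : 2 ^ k ≤ 2 ^ 2 := Nat.pow_le_pow_right (by norm_num) (by omega)
      omega) (by
      intro R hR
      apply hT
      omega) (Sum.elim 0 0) (Sum.elim 0 (Pi.single q₀ 1))
  have h3 := congrFun hconst ()
  have h4 : ∀ b, (fun e => fam T ι (Sum.elim 0 b) e || mask ι F c₀ e) = minst T ι F c₀ b := by
    intro b
    rw [fam_elim]
    rfl
  simp only [h4] at h3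
  obtain ⟨l, hl⟩ := models_minst ι hF hmin c₀ hq₀
  rw [hl] at h3
  push_cast at h3
  have h5 : (2 : K) ^ l = 0 := by
    have h6 := h3
    rwa [add_eq_left] at h6
  exact pow_ne_zero l h2 h5

/-- The lower bound for exact counting in a field. -/
theorem main_exact (n m : ℕ) (β : Fin m × Fin 32 ↪ Fin n) (K : Type) [Field K]
    (h2 : (2 : K) ≠ 0) (G : Subgroup (Perm (Fin n))) (hG : ContainsAlt β G) (d : ℕ)
    (hd : (2 * d : ℝ) < (2 : ℝ) ^ ((m : ℝ) / 10 ^ 8)) :
    ¬ Reg G d (1 : Representation K G (Unit → K)) (fun y _ => (models n y : K)) := by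
  -- from the real to the natural exponent
  have hk : ∀ d : ℕ, (2 * d : ℝ) < (2 : ℝ) ^ ((m : ℝ) / 10 ^ 8) → d < 2 ^ (m / 10 ^ 8) := by
    intro s hs
    have h1 : (m : ℝ) / 10 ^ 8 ≤ ((m / 10 ^ 8 + 1 : ℕ) : ℝ) := by
      rw [div_le_iff₀ (by positivity)]
      have h2 : m < (m / 10 ^ 8 + 1) * 10 ^ 8 := by omega
      exact_mod_cast h2.le
    have h3 : (2 : ℝ) ^ ((m : ℝ) / 10 ^ 8) ≤ (2 : ℝ) ^ (m / 10 ^ 8 + 1) := by
      rw [← Real.rpow_natCast 2 (m / 10 ^ 8 + 1)]
      exact Real.rpow_le_rpow_of_exponent_le (by norm_num) h1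
    have h4 : (2 * s : ℝ) < (2 : ℝ) ^ (m / 10 ^ 8 + 1) := lt_of_lt_of_le hs h3
    rw [pow_succ] at h4
    have h5 : (s : ℝ) < ((2 ^ (m / 10 ^ 8) : ℕ) : ℝ) := by
      push_cast
      linarith
    exact_mod_cast h5
  rcases Nat.lt_or_ge m 160 with hm | hm
  · intro hr
    have h1 := hk d hd
    rw [Nat.div_eq_of_lt (by omega), pow_zero, Nat.lt_one_iff] at h1
    have h4 := hr.card_le.2
    rw [Nat.card_eq_fintype_card, Fintype.card_unit] at h4
    omega
  · exact exact_large n m β hm K h2 G hG (m / 10 ^ 8) d (by omega) (hk d hd)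

end Pool.Agent.EQ
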