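import Mathlib

/-!
# Fourier coefficients of functions on `F_2 ^ J` with values in a vector space
-/

set_option autoImplicit false
set_option linter.unusedSectionVars false

namespace Pool.Agent.EQ

open Finset

/-- the sign of an element of the field with two elements -/
def sgn (K : Type) [Field K] (a : ZMod 2) : K := if a = 0 then 1 else -1

theorem zmod_two (a : ZMod 2) : a = 0 ∨ a = 1 := by
  fin_cases a
  · exact Or.inl rfl
  · exact Or.inr rfl

section

variable {K : Type} [Field K]

theorem sgn_zero : sgn K 0 = 1 := if_pos rfl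

theorem sgn_one : sgn K 1 = -1 := if_neg (by decide)

theorem sgn_add (a b : ZMod 2) : sgn K (a + b) = sgn K a * sgn K b := by
  rcases zmod_two a with rfl | rfl <;> rcases zmod_two b with rfl | rfl
  · rw [add_zero, sgn_zero, one_mul]
  · rw [zero_add, sgn_zero, one_mul]
  · rw [add_zero, sgn_zero, mul_one]
  · rw [show (1 : ZMod 2) + 1 = 0 from rfl, sgn_zero, sgn_one]; ring

theorem sgn_mul_self (a : ZMod 2) : sgn K a * sgn K a = 1 := by
  rw [← sgn_add, CharTwo.add_self_eq_zero, sgn_zero]

theorem sgn_ne_zero (a : ZMod 2) : sgn K a ≠ 0 := by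
  intro h
  have := sgn_mul_self (K := K) a
  rw [h, mul_zero] at this
  exact zero_ne_one this

variable {J : Type} [Fintype J] [DecidableEq J] {V : Type} [AddCommGroup V] [Module K V]

variable (K) in
/-- the character of `F_2 ^ J` given by `D` -/
def chi (D x : J → ZMod 2) : K := sgn K (dotProduct D x)

theorem chi_zero (D : J → ZMod 2) : chi K D 0 = 1 := by
  rw [chi, dotProduct_zero, sgn_zero]

theorem zero_chi (x : J → ZMod 2) : chi K 0 x = 1 := by
  rw [chi, zero_dotProduct, sgn_zero]

theorem chi_add (D x y : J → ZMod 2) : chi K D (x + y) = chi K D x * chi K D y := by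
  rw [chi, dotProduct_add, sgn_add]; rfl

theorem add_chi (D E x : J → ZMod 2) : chi K (D + E) x = chi K D x * chi K E x := by
  rw [chi, add_dotProduct, sgn_add]; rfl

theorem chi_comm (D x : J → ZMod 2) : chi K D x = chi K x D := by
  rw [chi, dotProduct_comm]; rfl

theorem chi_mul_self (D x : J → ZMod 2) : chi K D x * chi K D x = 1 := sgn_mul_self _

theorem chi_single (D : J → ZMod 2) (j : J) : chi K D (Pi.single j 1) = sgn K (D j) := by
  rw [chi, dotProduct_single, mul_one]

theorem sum_add_right {W : Type} [AddCommMonoid W] (F : (J → ZMod 2) → W) (t : J → ZMod 2) :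
    ∑ D, F (D + t) = ∑ D, F D :=
  Equiv.sum_comp (Equiv.addRight t) F

theorem sum_chi (h2 : (2 : K) ≠ 0) (x : J → ZMod 2) :
    ∑ D : J → ZMod 2, chi K D x = if x = 0 then (2 : K) ^ Fintype.card J else 0 := by
  by_cases hx : x = 0
  · rw [if_pos hx, hx]
    simp only [chi_zero, sum_const, nsmul_eq_mul, mul_one, Finset.card_univ, Fintype.card_fun,
      ZMod.card]
    push_cast
    rfl
  · rw [if_neg hx]
    obtain ⟨j, hj⟩ : ∃ j, x j ≠ 0 := by
      by_contra h
      push Not at h
      exact hx (funext h)
    have hj1 : x j = 1 := (zmod_two (x j)).resolve_left hj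
    have h1 : ∑ D : J → ZMod 2, chi K D x = ∑ D : J → ZMod 2, chi K (D + Pi.single j 1) x :=
      (sum_add_right (fun D => chi K D x) (Pi.single j 1)).symm
    have h3 : ∑ D : J → ZMod 2, chi K (D + Pi.single j 1) x = - ∑ D : J → ZMod 2, chi K D x := by
      rw [← Finset.sum_neg_distrib]
      apply Finset.sum_congr rfl
      intro D _
      rw [add_chi, chi_comm (Pi.single j 1) x, chi_single, hj1, sgn_one]
      ring
    rw [h3] at h1
    have h4 : (2 : K) * ∑ D : J → ZMod 2, chi K D x = 0 := by
      rw [two_mul]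
      nth_rewrite 1 [h1]
      ring
    exact (mul_eq_zero.1 h4).resolve_left h2

variable (K) in
/-- the (unnormalised) Fourier coefficient of `f` at `D` -/
def hat (f : (J → ZMod 2) → V) (D : J → ZMod 2) : V := ∑ x, chi K D x • f x

theorem hat_add (f g : (J → ZMod 2) → V) (D : J → ZMod 2) :
    hat K (fun x => f x + g x) D = hat K f D + hat K g D := by
  simp only [hat, smul_add, Finset.sum_add_distrib]

theorem hat_map {W : Type} [AddCommGroup W] [Module K W] (φ : V →ₗ[K] W)
    (f : (J → ZMod 2) → V) (D : J → ZMod 2) : hat K (fun x => φ (f x)) D = φ (hat K f D) := by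
  simp only [hat, map_sum, map_smul]

/-- Fourier inversion -/
theorem inversion (h2 : (2 : K) ≠ 0) (f : (J → ZMod 2) → V) (x : J → ZMod 2) :
    ∑ D : J → ZMod 2, chi K D x • hat K f D = (2 : K) ^ Fintype.card J • f x := by
  have h1 : ∀ D : J → ZMod 2, chi K D x • hat K f D = ∑ y, chi K D (x + y) • f y := by
    intro D
    rw [hat, Finset.smul_sum]
    apply Finset.sum_congr rfl
    intro y _
    rw [smul_smul, chi_add]
  simp only [h1]
  rw [Finset.sum_comm]
  have h3 : ∀ y : J → ZMod 2, ∑ D : J → ZMod 2, chi K D (x + y) • f y =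
      if y = x then (2 : K) ^ Fintype.card J • f y else 0 := by
    intro y
    rw [← Finset.sum_smul, sum_chi h2]
    have h4 : x + y = 0 ↔ y = x := by
      constructor
      · intro h
        have : x + y + x = 0 + x := by rw [h]
        rw [zero_add] at this
        rw [← this]
        funext j
        simp only [Pi.add_apply]
        rw [add_right_comm, CharTwo.add_self_eq_zero, zero_add]
      · rintro rfl
        funext j
        exact CharTwo.add_self_eq_zero _
    by_cases h : y = x
    · rw [if_pos (h4.2 h), if_pos h]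
    · rw [if_neg (fun h' => h (h4.1 h')), if_neg h, zero_smul]
  simp only [h3]
  rw [Finset.sum_ite_eq' univ x, if_pos (Finset.mem_univ _)]

theorem hat_shift {A : V →ₗ[K] V} {f : (J → ZMod 2) → V} {t : J → ZMod 2}
    (h : ∀ x, f (x + t) = A (f x)) (D : J → ZMod 2) : A (hat K f D) = chi K D t • hat K f D := by
  rw [← hat_map]
  have h1 : hat K f D = ∑ x, chi K D (x + t) • f (x + t) :=
    (sum_add_right (fun x => chi K D x • f x) t).symm
  rw [h1, Finset.smul_sum, hat]
  apply Finset.sum_congr rfl
  intro x _
  rw [h, smul_smul, chi_add]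
  congr 1
  rw [mul_comm, mul_assoc, chi_mul_self, mul_one]

/-- a coefficient at a character that is not trivial on a period vanishes -/
theorem hat_eq_zero_of_period (h2 : (2 : K) ≠ 0) {f : (J → ZMod 2) → V} {t D : J → ZMod 2}
    (h : ∀ x, f (x + t) = f x) (hD : dotProduct D t ≠ 0) : hat K f D = 0 := by
  have h1 := hat_shift (K := K) (A := LinearMap.id) (f := f) (t := t) h D
  rw [LinearMap.id_apply, chi, (zmod_two _).resolve_left hD, sgn_one, neg_smul, one_smul] at h1
  have h3 : (2 : K) • hat K f D = 0 := by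
    rw [two_smul]
    nth_rewrite 1 [h1]
    exact neg_add_cancel _
  exact (smul_eq_zero.1 h3).resolve_left h2

/-- the coefficients of a bilinear expression -/
theorem hat_bilin (h2 : (2 : K) ≠ 0) {V₁ V₂ : Type} [AddCommGroup V₁] [Module K V₁]
    [AddCommGroup V₂] [Module K V₂] (B : V₁ →ₗ[K] V₂ →ₗ[K] V)
    (f : (J → ZMod 2) → V₁) (g : (J → ZMod 2) → V₂) (D : J → ZMod 2)
    (h : hat K (fun x => B (f x) (g x)) D ≠ 0) :
    ∃ E, hat K f E ≠ 0 ∧ hat K g (D + E) ≠ 0 := by
  by_contra hcon
  push Not at hcon
  apply h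
  have h1 : (2 : K) ^ Fintype.card J • hat K (fun x => B (f x) (g x)) D =
      ∑ E, B (hat K f E) (hat K g (D + E)) := by
    rw [hat, Finset.smul_sum]
    have h3 : ∀ x, (2 : K) ^ Fintype.card J • (chi K D x • B (f x) (g x)) =
        ∑ E, chi K (D + E) x • B (hat K f E) (g x) := by
      intro x
      have h4 : (2 : K) ^ Fintype.card J • B (f x) (g x) = B ((2 : K) ^ Fintype.card J • f x) (g x) := by
        rw [map_smul, LinearMap.smul_apply]
      rw [smul_comm, h4, ← inversion h2, map_sum, LinearMap.sum_apply, Finset.smul_sum]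
      apply Finset.sum_congr rfl
      intro E _
      rw [map_smul, LinearMap.smul_apply, smul_smul, add_chi]
    simp only [h3]
    rw [Finset.sum_comm]
    apply Finset.sum_congr rfl
    intro E _
    change _ = B (hat K f E) (∑ x, chi K (D + E) x • g x)
    rw [map_sum]
    apply Finset.sum_congr rfl
    intro x _
    rw [map_smul]
  have h5 : ∑ E, B (hat K f E) (hat K g (D + E)) = 0 := by
    apply Finset.sum_eq_zero
    intro E _
    by_cases h6 : hat K f E = 0
    · rw [h6, map_zero, LinearMap.zero_apply]
    · rw [hcon E h6, map_zero]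
  rw [h5] at h1
  exact (smul_eq_zero.1 h1).resolve_left (pow_ne_zero _ h2)

/-- a function with values in a finite power, coefficient by coefficient -/
theorem hat_apply {I : Type} (f : (J → ZMod 2) → I → K) (D : J → ZMod 2) (i : I) :
    hat K f D i = hat K (fun x => f x i) D := by
  simp only [hat, Finset.sum_apply, Pi.smul_apply]

theorem hat_const (h2 : (2 : K) ≠ 0) (v : V) {D : J → ZMod 2} (hD : D ≠ 0) :
    hat K (fun _ : J → ZMod 2 => v) D = 0 := by
  obtain ⟨j, hj⟩ : ∃ j, D j ≠ 0 := by
    by_contra h
    push Not at h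
    exact hD (funext h)
  apply hat_eq_zero_of_period h2 (t := Pi.single j 1) (fun _ => rfl)
  rw [dotProduct_single, mul_one]
  exact hj

end

/-- separation of a subspace of `F_2 ^ J` from a point by a linear form -/
theorem exists_separating {J : Type} [Fintype J] [DecidableEq J] (S : Submodule (ZMod 2) (J → ZMod 2))
    {D : J → ZMod 2} (hD : D ∉ S) :
    ∃ t : J → ZMod 2, (∀ E ∈ S, dotProduct E t = 0) ∧ dotProduct D t ≠ 0 := by
  obtain ⟨φ, h1, h3⟩ := Submodule.exists_le_ker_of_notMem hD
  have h4 : ∀ E : J → ZMod 2, dotProduct E (fun i => φ (fun j => if i = j then 1 else 0)) = φ E := by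
    intro E
    rw [LinearMap.pi_apply_eq_sum_univ φ E]
    rfl
  refine ⟨fun i => φ (fun j => if i = j then 1 else 0), ?_, ?_⟩
  · intro E hE
    rw [h4]
    exact h3 hE
  · rw [h4]
    exact h1

end Pool.Agent.EQ
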