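import Pool.Agent.EQ.Family

/-!
# The Fourier coefficients of a register vanish outside of the small characters
-/

set_option autoImplicit false

namespace Pool.Agent.EQ

open Equiv Equiv.Perm Pool.Agent.Helper94.SN

variable {M N n : ℕ}

/-! ### characters of the group of twists -/

/-- the part of a character that is seen by the translations -/
def fst (D : Tw M → ZMod 2) : Fin M × Fin 5 → ZMod 2 := fun p => D (Sum.inl p)

/-- the equations whose right hand side is seen by the character -/
def rhs (D : Tw M → ZMod 2) : Finset (Fin M) := Finset.univ.filter fun q => D (Sum.inr q) ≠ 0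

theorem mem_rhs {D : Tw M → ZMod 2} {q : Fin M} : q ∈ rhs D ↔ D (Sum.inr q) ≠ 0 := by
  unfold rhs
  rw [Finset.mem_filter]
  exact ⟨fun h => h.2, fun h => ⟨Finset.mem_univ _, h⟩⟩

theorem dot_elim (D : Tw M → ZMod 2) (a : Fin M × Fin 5 → ZMod 2) :
    dotProduct D (Sum.elim a 0 : Tw M → ZMod 2) = dotProduct (fst D) a := by
  simp only [dotProduct, fst, Fintype.sum_sum_type, Sum.elim_inl, Sum.elim_inr, Pi.zero_apply,
    mul_zero, Finset.sum_const_zero, add_zero]

/-- the character is trivial on the periods of the family -/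
def Nice (T : Fin M → Fin 5 → Fin N) (D : Tw M → ZMod 2) : Prop :=
  ∀ z, dotProduct D (per T z) = 0

/-- the character is small -/
def Good (k : ℕ) (D : Tw M → ZMod 2) : Prop := (supp (fst D)).card < k ∧ (rhs D).card < 5 * k

theorem Nice.add {T : Fin M → Fin 5 → Fin N} {D E : Tw M → ZMod 2} (hD : Nice T D)
    (hE : Nice T E) : Nice T (D + E) := by
  intro z
  rw [add_dotProduct, hD z, hE z, add_zero]

theorem rhs_add_card (D E : Tw M → ZMod 2) : (rhs (D + E)).card ≤ (rhs D).card + (rhs E).card := by
  classical
  refine le_trans (Finset.card_le_card ?_) (Finset.card_union_le _ _)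
  intro q hq
  rw [Finset.mem_union, mem_rhs, mem_rhs]
  rw [mem_rhs, Pi.add_apply] at hq
  by_contra h
  push Not at h
  rw [h.1, h.2, add_zero] at hq
  exact hq rfl

/-- expansion: a character with a small translation part is either small or large -/
theorem rhs_le {T : Fin M → Fin 5 → Fin N} {k : ℕ}
    (hT : ∀ R : Finset (Fin M), R.card < 10 * k → R.card ≤ (uniq T R).card)
    {D : Tw M → ZMod 2} (hD : Nice T D) (h : (rhs D).card < 10 * k) :
    (rhs D).card ≤ 5 * (supp (fst D)).card := by
  classical
  refine (hT _ h).trans ?_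
  have h1 : uniq T (rhs D) ⊆ ((supp (fst D)) ×ˢ (Finset.univ : Finset (Fin 5))).image
      (fun p => T p.1 p.2) := by
    intro v hv
    have hv1 : ((rhs D ×ˢ (Finset.univ : Finset (Fin 5))).filter
        fun p => T p.1 p.2 = v).card = 1 := (Finset.mem_filter.1 hv).2
    have h2 := hD (Pi.single v 1)
    rw [dotProduct, Fintype.sum_sum_type] at h2
    have h3 : ∑ q : Fin M, D (Sum.inr q) * per T (Pi.single v 1) (Sum.inr q) = 1 := by
      have h4 : ∀ q : Fin M, D (Sum.inr q) * per T (Pi.single v 1) (Sum.inr q) =
          ∑ i : Fin 5, if q ∈ rhs D ∧ T q i = v then 1 else 0 := by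
        intro q
        change D (Sum.inr q) * lhs T (Pi.single v 1) q = _
        rw [lhs, Finset.mul_sum]
        apply Finset.sum_congr rfl
        intro i _
        rw [Pi.single_apply]
        by_cases h5 : T q i = v
        · rw [if_pos h5, mul_one]
          by_cases h6 : q ∈ rhs D
          · rw [if_pos ⟨h6, h5⟩]
            exact (zmod_two _).resolve_left (mem_rhs.1 h6)
          · rw [if_neg (fun h => h6 h.1)]
            by_contra h7
            exact h6 (mem_rhs.2 h7)
        · rw [if_neg h5, mul_zero, if_neg (fun h => h5 h.2)]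
      simp only [h4]
      rw [← Fintype.sum_prod_type' (fun q i => if q ∈ rhs D ∧ T q i = v then (1 : ZMod 2) else 0),
        Finset.sum_boole]
      have h8 : (Finset.univ.filter fun x : Fin M × Fin 5 => x.1 ∈ rhs D ∧ T x.1 x.2 = v) =
          (rhs D ×ˢ (Finset.univ : Finset (Fin 5))).filter fun p => T p.1 p.2 = v := by
        ext p
        simp only [Finset.mem_filter, Finset.mem_univ, true_and, Finset.mem_product, and_true]
      rw [h8, hv1, Nat.cast_one]
    rw [h3] at h2
    have h9 : ∃ p : Fin M × Fin 5, D (Sum.inl p) * per T (Pi.single v 1) (Sum.inl p) ≠ 0 := by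
      by_contra h10
      push Not at h10
      rw [Finset.sum_eq_zero (fun p _ => h10 p), zero_add] at h2
      exact one_ne_zero h2
    obtain ⟨p, hp⟩ := h9
    have hp1 : D (Sum.inl p) ≠ 0 := left_ne_zero_of_mul hp
    have hp2 : T p.1 p.2 = v := by
      by_contra h11
      apply right_ne_zero_of_mul hp
      change (Pi.single v 1 : Fin N → ZMod 2) (T p.1 p.2) = 0
      rw [Pi.single_eq_of_ne h11]
    rw [Finset.mem_image]
    refine ⟨p, ?_, hp2⟩
    rw [Finset.mem_product]
    exact ⟨mem_supp.2 ⟨p.2, hp1⟩, Finset.mem_univ _⟩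
  refine (Finset.card_le_card h1).trans (Finset.card_image_le.trans ?_)
  rw [Finset.card_product, Finset.card_univ, Fintype.card_fin, mul_comm]

theorem good_of {T : Fin M → Fin 5 → Fin N} {k : ℕ}
    (hT : ∀ R : Finset (Fin M), R.card < 10 * k → R.card ≤ (uniq T R).card)
    {D : Tw M → ZMod 2} (hD : Nice T D) (h1 : (supp (fst D)).card < k)
    (h2 : (rhs D).card < 10 * k) : Good k D := by
  refine ⟨h1, ?_⟩
  have := rhs_le hT hD h2
  omega

/-! ### functions on the family of instances -/

section

variable {G : Subgroup (Perm (Fin n))} {ι : Vert M ↪ Fin n} (hG : Adm ι G) (T : Fin M → Fin 5 → Fin N)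

/-- the function of the twist is equivariant and has the periods of the family -/
structure Eqv {K : Type} [Field K] {V : Type} [AddCommGroup V] [Module K V]
    (ρ : Representation K G V) (f : (Tw M → ZMod 2) → V) : Prop where
  add : ∀ (x : Tw M → ZMod 2) (a : Fin M × Fin 5 → ZMod 2),
    f (x + (Sum.elim a 0 : Tw M → ZMod 2)) = ρ (gT hG a) (f x)
  per : ∀ x z, f (x + per T z) = f x

/-- only small characters occur -/
def LGood (K : Type) [Field K] {V : Type} [AddCommGroup V] [Module K V] (k : ℕ)
    (f : (Tw M → ZMod 2) → V) : Prop := ∀ D, hat K f D ≠ 0 → Good k D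

variable {hG T}

theorem Eqv.nice {K : Type} [Field K] (h2 : (2 : K) ≠ 0) {V : Type} [AddCommGroup V] [Module K V]
    {ρ : Representation K G V} {f : (Tw M → ZMod 2) → V} (hf : Eqv hG T ρ f)
    {D : Tw M → ZMod 2} (hD : hat K f D ≠ 0) : Nice T D := by
  intro z
  by_contra h
  exact hD (hat_eq_zero_of_period h2 (fun x => hf.per x z) h)

theorem Eqv.eigen {K : Type} [Field K] {V : Type} [AddCommGroup V] [Module K V]
    {ρ : Representation K G V} {f : (Tw M → ZMod 2) → V} (hf : Eqv hG T ρ f)
    (D : Tw M → ZMod 2) (a : Fin M × Fin 5 → ZMod 2) :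
    ρ (gT hG a) (hat K f D) = chi K (fst D) a • hat K f D := by
  rw [hat_shift (fun x => hf.add x a) D, chi, dot_elim]
  rfl

theorem Eqv.good {K : Type} [Field K] (h2 : (2 : K) ≠ 0) {V : Type} [AddCommGroup V] [Module K V]
    [Module.Finite K V] {ρ : Representation K G V} {f : (Tw M → ZMod 2) → V}
    (hf : Eqv hG T ρ f) {k : ℕ} (hV : Module.finrank K V < 2 ^ k)
    (hT : ∀ R : Finset (Fin M), R.card < 10 * k → R.card ≤ (uniq T R).card)
    {D : Tw M → ZMod 2} (hD : hat K f D ≠ 0) (hR : (rhs D).card < 10 * k) : Good k D := by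
  apply good_of hT (hf.nice h2 hD) _ hR
  have h3 := dim_bound hG h2 ρ hD (hf.eigen D)
  exact (Nat.pow_lt_pow_iff_right (by norm_num)).1 (lt_of_le_of_lt h3 hV)

/-! ### permutation modules -/

variable (hG) in
/-- the character is trivial on the translations that fix the point `a` -/
def St {I : Type} (α : G →* Perm I) (a : I) (D : Tw M → ZMod 2) : Prop :=
  ∀ b, α (gT hG b) a = a → dotProduct (fst D) b = 0

theorem perm_dim {I : Type} [Fintype I] {α : G →* Perm I} {a : I} {D : Tw M → ZMod 2}
    (hD : St hG α a D) : 2 ^ (supp (fst D)).card ≤ Fintype.card I := by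
  classical
  set v : I → ℚ := fun c => ∑ b, if α (gT hG b) a = c then chi ℚ (fst D) b else 0 with hv
  have hv0 : v ≠ 0 := by
    intro h
    have h1 := congrFun h a
    rw [hv] at h1
    simp only [Pi.zero_apply] at h1
    have h3 : ∀ b, (if α (gT hG b) a = a then chi ℚ (fst D) b else 0) =
        if α (gT hG b) a = a then 1 else 0 := by
      intro b
      by_cases hb : α (gT hG b) a = a
      · rw [if_pos hb, if_pos hb, chi, hD b hb, sgn_zero]
      · rw [if_neg hb, if_neg hb]
    simp only [h3] at h1
    have h4 := (Finset.sum_eq_zero_iff_of_nonneg (fun b _ => by positivity)).1 h1 0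
      (Finset.mem_univ _)
    rw [gT_zero, map_one, Perm.one_apply, if_pos rfl] at h4
    exact one_ne_zero h4
  have h5 : ∀ c, permRep ℚ α (gT hG c) v = chi ℚ (fst D) c • v := by
    intro c
    funext i
    rw [permRep_apply, Pi.smul_apply, hv]
    change ∑ b, (if α (gT hG b) a = (α (gT hG c)).symm i then chi ℚ (fst D) b else 0) =
      chi ℚ (fst D) c • ∑ b, (if α (gT hG b) a = i then chi ℚ (fst D) b else 0)
    rw [← sum_add_right (fun b => if α (gT hG b) a = i then chi ℚ (fst D) b else 0) c,
      Finset.smul_sum]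
    apply Finset.sum_congr rfl
    intro b _
    have h6 : α (gT hG b) a = (α (gT hG c)).symm i ↔ α (gT hG (b + c)) a = i := by
      rw [Equiv.eq_symm_apply, add_comm b c, gT_add, map_mul, Perm.mul_apply]
    by_cases h7 : α (gT hG (b + c)) a = i
    · rw [if_pos h7, if_pos (h6.2 h7), chi_add, smul_eq_mul, mul_comm (chi ℚ (fst D) b),
        ← mul_assoc, chi_mul_self, one_mul]
    · rw [if_neg h7, if_neg (fun h => h7 (h6.1 h)), smul_zero]
  have h8 := dim_bound hG (by norm_num : (2 : ℚ) ≠ 0) (permRep ℚ α) hv0 h5
  rwa [Module.finrank_fintype_fun_eq_card] at h8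

variable (hG T) in
/-- the small characters that are trivial on the translations that fix `a` -/
def Sub {I : Type} [Fintype I] (α : G →* Perm I) {k : ℕ} (hk : 0 < k)
    (hI : Fintype.card I < 2 ^ k)
    (hT : ∀ R : Finset (Fin M), R.card < 10 * k → R.card ≤ (uniq T R).card) (a : I) :
    Submodule (ZMod 2) (Tw M → ZMod 2) where
  carrier := {D | Nice T D ∧ Good k D ∧ St hG α a D}
  add_mem' := by
    rintro D E ⟨h1, h2, h3⟩ ⟨h4, h5, h6⟩
    have h7 : St hG α a (D + E) := by
      intro b hb
      have h8 : fst (D + E) = fst D + fst E := rfl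
      rw [h8, add_dotProduct, h3 b hb, h6 b hb, add_zero]
    refine ⟨h1.add h4, ?_, h7⟩
    apply good_of hT (h1.add h4)
    · exact (Nat.pow_lt_pow_iff_right (by norm_num)).1 (lt_of_le_of_lt (perm_dim h7) hI)
    · have := rhs_add_card D E
      have := h2.2
      have := h5.2
      omega
  zero_mem' := by
    refine ⟨fun z => zero_dotProduct _, ⟨?_, ?_⟩, fun b _ => zero_dotProduct _⟩
    · have h1 : supp (fst (0 : Tw M → ZMod 2)) = ∅ := by
        ext q
        rw [mem_supp]
        simp [fst]
      rw [h1, Finset.card_empty]; exact hk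
    · have h1 : rhs (0 : Tw M → ZMod 2) = ∅ := by
        ext q
        rw [mem_rhs]
        simp
      rw [h1, Finset.card_empty]; omega
  smul_mem' := by
    intro c D hD
    rcases zmod_two c with rfl | rfl
    · rw [zero_smul]
      refine ⟨fun z => zero_dotProduct _, ⟨?_, ?_⟩, fun b _ => zero_dotProduct _⟩
      · have h1 : supp (fst (0 : Tw M → ZMod 2)) = ∅ := by
          ext q
          rw [mem_supp]
          simp [fst]
        rw [h1, Finset.card_empty]; exact hk
      · have h1 : rhs (0 : Tw M → ZMod 2) = ∅ := by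
          ext q
          rw [mem_rhs]
          simp
        rw [h1, Finset.card_empty]; omega
    · rw [one_smul]; exact hD

theorem mem_Sub {I : Type} [Fintype I] {α : G →* Perm I} {k : ℕ} {hk : 0 < k}
    {hI : Fintype.card I < 2 ^ k}
    {hT : ∀ R : Finset (Fin M), R.card < 10 * k → R.card ≤ (uniq T R).card} {a : I}
    {D : Tw M → ZMod 2} :
    D ∈ Sub hG T α hk hI hT a ↔ Nice T D ∧ Good k D ∧ St hG α a D := Iff.rfl

variable (hG T) in
/-- each coordinate of the function is invariant under the annihilator of its small characters -/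
def PGood {X : Type} {I : Type} [Fintype I] (α : G →* Perm I) {k : ℕ} (hk : 0 < k)
    (hI : Fintype.card I < 2 ^ k)
    (hT : ∀ R : Finset (Fin M), R.card < 10 * k → R.card ≤ (uniq T R).card)
    (f : (Tw M → ZMod 2) → I → X) : Prop :=
  ∀ a t, (∀ E ∈ Sub hG T α hk hI hT a, dotProduct E t = 0) → ∀ x, f (x + t) a = f x a

theorem LGood.pgood {K : Type} [Field K] (h2 : (2 : K) ≠ 0) {I : Type} [Fintype I]
    {α : G →* Perm I} {k : ℕ} (hk : 0 < k) (hI : Fintype.card I < 2 ^ k)
    (hT : ∀ R : Finset (Fin M), R.card < 10 * k → R.card ≤ (uniq T R).card)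
    {f : (Tw M → ZMod 2) → I → K} (hf : Eqv hG T (permRep K α) f) (hL : LGood K k f) :
    PGood hG T α hk hI hT f := by
  intro a t ht x
  have h3 : ∀ y, (2 : K) ^ Fintype.card (Tw M) • f y a = ∑ D, chi K D y • hat K f D a := by
    intro y
    have h4 := congrFun (inversion h2 f y) a
    rw [Pi.smul_apply] at h4
    rw [← h4, Finset.sum_apply]
    rfl
  have h5 : (2 : K) ^ Fintype.card (Tw M) • f (x + t) a =
      (2 : K) ^ Fintype.card (Tw M) • f x a := by
    rw [h3, h3]
    apply Finset.sum_congr rfl
    intro D _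
    by_cases h6 : hat K f D a = 0
    · rw [h6, smul_zero, smul_zero]
    · have h7 : hat K f D ≠ 0 := by
        intro h; rw [h] at h6; exact h6 rfl
      have h8 : D ∈ Sub hG T α hk hI hT a := by
        refine ⟨hf.nice h2 h7, hL D h7, ?_⟩
        intro b hb
        have h9 := congrFun (hf.eigen D b) a
        rw [permRep_apply, Pi.smul_apply] at h9
        have h10 : (α (gT hG b)).symm a = a := by rw [Equiv.symm_apply_eq, hb]
        rw [h10] at h9
        by_contra h11
        rw [chi, (zmod_two _).resolve_left h11, sgn_one, neg_smul, one_smul] at h9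
        have h12 : (2 : K) * hat K f D a = 0 := by
          rw [two_mul]
          nth_rewrite 1 [h9]
          exact neg_add_cancel _
        exact h6 ((mul_eq_zero.1 h12).resolve_left h2)
      rw [chi_add, show chi K D t = 1 by rw [chi, ht D h8, sgn_zero], mul_one]
  exact smul_right_injective K (pow_ne_zero _ h2) h5

theorem PGood.lgood {K : Type} [Field K] (h2 : (2 : K) ≠ 0) {I : Type} [Fintype I]
    {α : G →* Perm I} {k : ℕ} {hk : 0 < k} {hI : Fintype.card I < 2 ^ k}
    {hT : ∀ R : Finset (Fin M), R.card < 10 * k → R.card ≤ (uniq T R).card}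
    {f : (Tw M → ZMod 2) → I → K} (hP : PGood hG T α hk hI hT f) : LGood K k f := by
  intro D hD
  obtain ⟨a, ha⟩ : ∃ a, hat K f D a ≠ 0 := by
    by_contra h
    push Not at h
    exact hD (funext h)
  by_contra hcon
  have h3 : D ∉ Sub hG T α hk hI hT a := fun h => hcon h.2.1
  obtain ⟨t, h4, h5⟩ := exists_separating _ h3
  apply ha
  rw [hat_apply]
  exact hat_eq_zero_of_period h2 (hP a t h4) h5

/-- the gates preserve the property -/
theorem gate_pgood {X : Type} {I I' : Type} [Fintype I] [Fintype I'] {α : G →* Perm I}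
    {β : G →* Perm I'} {k : ℕ} (hk : 0 < k) (hI : Fintype.card I < 2 ^ k)
    (hI' : Fintype.card I' < 2 ^ k)
    (hT : ∀ R : Finset (Fin M), R.card < 10 * k → R.card ≤ (uniq T R).card)
    {f : (Tw M → ZMod 2) → I → X}
    (hadd : ∀ (x : Tw M → ZMod 2) (a : Fin M × Fin 5 → ZMod 2) i,
      f (x + (Sum.elim a 0 : Tw M → ZMod 2)) i = f x ((α (gT hG a)).symm i))
    (hper : ∀ x z, f (x + per T z) = f x)
    (hP : PGood hG T α hk hI hT f) (lab : I' → I → ℕ)
    (hlab : ∀ g a b, lab (β g a) (α g b) = lab a b) :
    PGood hG T β hk hI' hT (fun x a => (Finset.univ : Finset I).val.map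
      (fun b => (lab a b, f x b))) := by
  classical
  intro a t ht x
  ext ⟨l, c⟩
  -- the number of wires with label `l` and value `c`
  set u : (Tw M → ZMod 2) → I → ℚ := fun x b => if f x b = c then 1 else 0 with hu
  have hue : Eqv hG T (permRep ℚ α) u := by
    constructor
    · intro x a
      funext i
      rw [permRep_apply, hu]
      simp only [hadd]
    · intro x z
      rw [hu]
      simp only [hper]
  have hup : PGood hG T α hk hI hT u := by
    intro a t ht x
    rw [hu]
    simp only [hP a t ht x]
  have hul : LGood ℚ k u := hup.lgood (by norm_num)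
  set φ : (I → ℚ) →ₗ[ℚ] (I' → ℚ) :=
    LinearMap.pi fun a => ∑ b, if lab a b = l then LinearMap.proj b else 0 with hφ
  have hφa : ∀ v a, φ v a = ∑ b, if lab a b = l then v b else 0 := by
    intro v a
    rw [hφ, LinearMap.pi_apply, LinearMap.sum_apply]
    apply Finset.sum_congr rfl
    intro b _
    by_cases h : lab a b = l
    · rw [if_pos h, if_pos h, LinearMap.proj_apply]
    · rw [if_neg h, if_neg h, LinearMap.zero_apply]
  have hNe : Eqv hG T (permRep ℚ β) (fun x => φ (u x)) := by
    constructor
    · intro x a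
      funext i
      rw [permRep_apply, hφa, hφa, hue.add]
      rw [← Equiv.sum_comp (α (gT hG a))]
      apply Finset.sum_congr rfl
      intro b _
      rw [permRep_apply, Equiv.symm_apply_apply]
      have h1 : lab ((β (gT hG a)).symm i) b = lab i (α (gT hG a) b) := by
        rw [← hlab (gT hG a), Equiv.apply_symm_apply]
      rw [h1]
    · intro x z
      simp only [hue.per]
  have hNl : LGood ℚ k (fun x => φ (u x)) := by
    intro D hD
    apply hul D
    intro h
    rw [hat_map, h, map_zero] at hD
    exact hD rfl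
  have hNp := hNl.pgood (by norm_num) hk hI' hT hNe a t ht x
  rw [hφa, hφa] at hNp
  have hcount : ∀ x, ((Multiset.count (l, c) ((Finset.univ : Finset I).val.map
      (fun b => (lab a b, f x b))) : ℕ) : ℚ) = ∑ b, if lab a b = l then u x b else 0 := by
    intro x
    rw [Multiset.count_map]
    have h1 : ∀ b, (if lab a b = l then u x b else 0) =
        if (l, c) = (lab a b, f x b) then (1 : ℚ) else 0 := by
      intro b
      rw [hu]
      by_cases h : lab a b = l
      · by_cases h' : f x b = c
        · simp [h, h']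
        · simp [h, h', Ne.symm (Ne.intro h')]
      · rw [if_neg h, if_neg]
        intro h'
        exact h (congrArg Prod.fst h').symm
    simp only [h1]
    rw [Finset.sum_boole]
    rfl
  have h2 := (hcount (x + t)).trans (hNp.trans (hcount x).symm)
  exact_mod_cast h2

end

end Pool.Agent.EQ
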