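import Pool.Agent.EQ.Good
import Pool.Agent.Helper94.SN.Final

/-!
# Equivariant programs cannot count the models of monotone 2-CNFs
-/

set_option autoImplicit false

namespace Pool.Agent.EQ

open Equiv Equiv.Perm Pool.Agent.Helper94.SN

variable {M N n : ℕ}

section

variable {G : Subgroup (Perm (Fin n))} {ι : Vert M ↪ Fin n} (hG : Adm ι G)
  (T : Fin M → Fin 5 → Fin N) {Y : (Tw M → ZMod 2) → Input n} (hY : IsFam T ι Y)

include hY in
theorem Reg.eqv {K : Type} [Field K] {d : ℕ} {I : Type} {ρ : Representation K G (I → K)}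
    {r : Input n → I → K} (h : Reg G d ρ r) :
    Eqv hG T ρ (fun x => r (Y x)) where
  add x a := by
    rw [hY.add]
    exact h.equivariant (gT hG a) (Y x)
  per x z := by
    rw [hY.per]

include hY in
theorem input_good {K : Type} [Field K] (h2 : (2 : K) ≠ 0) {k : ℕ} (hk : 3 ≤ k) :
    LGood K k (fun (x : Tw M → ZMod 2) (e : Sym2 (Fin n)) =>
      if Y x e then (1 : K) else 0) := by
  intro D hD
  obtain ⟨e, he⟩ : ∃ e, hat K (fun (x : Tw M → ZMod 2) (e : Sym2 (Fin n)) =>
      if Y x e then (1 : K) else 0) D e ≠ 0 := by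
    by_contra h
    push Not at h
    exact hD (funext h)
  rw [hat_apply] at he
  have h1 : ∀ j : Tw M, D j ≠ 0 → Sum.elim (fun p : Fin M × Fin 5 => p.1) id j ∈ eqs ι e := by
    intro j hj
    by_contra hcon
    apply he
    apply hat_eq_zero_of_period h2 (t := Pi.single j 1)
    · intro x
      rw [hY.loc e x (Pi.single j 1)]
      intro q hq
      constructor
      · intro i
        apply Pi.single_eq_of_ne
        rintro rfl
        exact hcon hq
      · apply Pi.single_eq_of_ne
        rintro rfl
        exact hcon hq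
    · rw [dotProduct_single, mul_one]
      exact hj
  constructor
  · have h3 : supp (fst D) ⊆ eqs ι e := by
      intro q hq
      obtain ⟨i, hi⟩ := mem_supp.1 hq
      exact h1 (Sum.inl (q, i)) hi
    have := (Finset.card_le_card h3).trans (card_eqs_le ι e)
    omega
  · have h3 : rhs D ⊆ eqs ι e := by
      intro q hq
      exact h1 (Sum.inr q) (mem_rhs.1 hq)
    have := (Finset.card_le_card h3).trans (card_eqs_le ι e)
    omega

include hG hY in
theorem Reg.lgood {K : Type} [Field K] (h2 : (2 : K) ≠ 0) {d k : ℕ} (hd : d < 2 ^ k)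
    (hk : 0 < k) (hk3 : Fintype.card (Sym2 (Fin n)) ≤ d → 3 ≤ k)
    (hT : ∀ R : Finset (Fin M), R.card < 10 * k → R.card ≤ (uniq T R).card)
    {I : Type} {ρ : Representation K G (I → K)} {r : Input n → I → K} (h : Reg G d ρ r) :
    LGood K k (fun x => r (Y x)) := by
  induction h with
  | input h => exact input_good T hY h2 (hk3 h)
  | const h ρ v hv =>
    intro D hD
    have h0 : D = 0 := by
      by_contra h1
      exact hD (hat_const h2 v h1)
    subst h0
    constructor
    · have h1 : supp (fst (0 : Tw M → ZMod 2)) = ∅ := by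
        ext q
        rw [mem_supp]
        simp [fst]
      rw [h1, Finset.card_empty]; exact hk
    · have h1 : Pool.Agent.EQ.rhs (0 : Tw M → ZMod 2) = ∅ := by
        ext q
        rw [mem_rhs]
        simp
      rw [h1, Finset.card_empty]; omega
  | @add I ρ r₁ r₂ h₁ h₂ ih₁ ih₂ =>
    intro D hD
    by_cases h3 : hat K (fun x => r₁ (Y x)) D = 0
    · apply ih₂ D
      intro h4
      apply hD
      change hat K (fun x => r₁ (Y x) + r₂ (Y x)) D = 0
      rw [hat_add, h3, h4, add_zero]
    · exact ih₁ D h3
  | @bilin I₁ I₂ ρ₁ ρ₂ r₁ r₂ h₁ h₂ I _ h ρ B hB ih₁ ih₂ =>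
    intro D hD
    obtain ⟨E, hE1, hE2⟩ := hat_bilin h2 B (fun x => r₁ (Y x)) (fun x => r₂ (Y x)) D hD
    have h3 := ih₁ E hE1
    have h4 := ih₂ (D + E) hE2
    have h5 : (Pool.Agent.EQ.rhs D).card < 10 * k := by
      have h6 : D = (D + E) + E := by
        funext j
        simp only [Pi.add_apply]
        rw [add_assoc, CharTwo.add_self_eq_zero, add_zero]
      have h7 := rhs_add_card (D + E) E
      rw [← h6] at h7
      have := h3.2
      have := h4.2
      omega
    refine Eqv.good h2 ((Reg.bilin h₁ h₂ h ρ B hB).eqv hG T hY) ?_ hT hD h5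
    rw [Module.finrank_fintype_fun_eq_card]
    omega
  | @gate κ I _ α r hr I' _ h β lab hlab F hF ih =>
    have hI : ∀ j, Fintype.card (I j) < 2 ^ k := by
      intro j
      have h3 := (hr j).card_le.2
      rw [Nat.card_eq_fintype_card] at h3
      omega
    have hI' : Fintype.card I' < 2 ^ k := by omega
    have h3 : ∀ j, PGood hG T (α j) hk (hI j) hT (fun x => r j (Y x)) := fun j =>
      (ih j).pgood h2 hk (hI j) hT ((hr j).eqv hG T hY)
    have h4 : PGood hG T β hk hI' hT (fun x => (fun y (a : I') => F a (fun j =>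
        (Finset.univ : Finset (I j)).val.map (fun b => (lab j a b, r j y b)))) (Y x)) := by
      intro a t ht x
      change F a _ = F a _
      congr 1
      funext j
      have h5 := gate_pgood hk (hI j) hI' hT (f := fun x => r j (Y x))
        (fun x a i => by
          have h6 := congrFun (((hr j).eqv hG T hY).add x a) i
          rw [permRep_apply] at h6
          exact h6)
        (fun x z => ((hr j).eqv hG T hY).per x z) (h3 j) (lab j) (fun g a b => hlab g j a b)
      exact h5 a t ht x
    exact h4.lgood h2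

include hG hY in
/-- registers with the trivial representation are constant on the family -/
theorem Reg.fam_eq {K : Type} [Field K] (h2 : (2 : K) ≠ 0) {d k : ℕ} (hd : d < 2 ^ k)
    (hk : 0 < k) (hk3 : Fintype.card (Sym2 (Fin n)) ≤ d → 3 ≤ k)
    (hT : ∀ R : Finset (Fin M), R.card < 10 * k → R.card ≤ (uniq T R).card)
    {I : Type} {r : Input n → I → K} (h : Reg G d (1 : Representation K G (I → K)) r)
    (x x' : Tw M → ZMod 2) : r (Y x) = r (Y x') := by
  have hL := h.lgood hG T hY h2 hd hk hk3 hT
  have hE := h.eqv hG T hY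
  have h0 : ∀ D, hat K (fun x => r (Y x)) D ≠ 0 → D = 0 := by
    intro D hD
    have h3 : fst D = 0 := by
      funext p
      by_contra h4
      have h5 := hE.eigen D (Pi.single p 1)
      rw [chi_single, (zmod_two _).resolve_left h4, sgn_one, neg_smul, one_smul] at h5
      have h6 : (2 : K) • hat K (fun x => r (Y x)) D = 0 := by
        rw [two_smul]
        nth_rewrite 1 [show hat K (fun x => r (Y x)) D =
          -hat K (fun x => r (Y x)) D from h5]
        exact neg_add_cancel _
      exact hD ((smul_eq_zero.1 h6).resolve_left h2)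
    have h7 := rhs_le hT (hE.nice h2 hD) (by have := (hL D hD).2; omega)
    have h8 : supp (fst D) = ∅ := by
      ext q
      rw [mem_supp, h3]
      simp
    rw [h8, Finset.card_empty, mul_zero, Nat.le_zero, Finset.card_eq_zero] at h7
    funext j
    rcases j with p | q
    · exact congrFun h3 p
    · by_contra h9
      have : q ∈ Pool.Agent.EQ.rhs D := mem_rhs.2 h9
      rw [h7] at this
      exact absurd this (Finset.notMem_empty _)
  have h10 : ∀ x, (2 : K) ^ Fintype.card (Tw M) • r (Y x) =
      hat K (fun x => r (Y x)) 0 := by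
    intro x
    rw [← inversion h2 (fun x => r (Y x)) x]
    rw [Finset.sum_eq_single (0 : Tw M → ZMod 2)]
    · rw [zero_chi, one_smul]
    · intro D _ hD
      by_cases h11 : hat K (fun x => r (Y x)) D = 0
      · rw [h11, smul_zero]
      · exact absurd (h0 D h11) hD
    · intro h; exact absurd (Finset.mem_univ _) h
  exact smul_right_injective _ (pow_ne_zero _ h2) ((h10 x).trans (h10 x').symm)

end

theorem fam_elim (T : Fin M → Fin 5 → Fin N) (ι : Vert M ↪ Fin n) (b : Fin M → ZMod 2) :
    fam T ι (Sum.elim 0 b) = inst T ι b := by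
  unfold fam
  have h1 : (tau fun p => (Sum.elim 0 b : Tw M → ZMod 2) (Sum.inl p)).viaEmbedding ι = 1 := by
    change viaEmbeddingHom ι (tau 0) = 1
    rw [tau_zero, map_one]
  rw [h1, rename_one]
  rfl

/-- the case of at least `160` blocks -/
theorem exists_pair_large (n m : ℕ) (β : Fin m × Fin 32 ↪ Fin n) (hm : 160 ≤ m) :
    ∃ y y' : Input n, 2 ^ (2 * (m / 160)) * models n y' ≤ models n y ∧
      ∀ (K : Type) [Field K], (2 : K) ≠ 0 → ∀ G : Subgroup (Perm (Fin n)), ContainsAlt β G →
        ∀ k d : ℕ, 72900 * k ≤ m / 160 → d < 2 ^ k →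
        ∀ (I : Type) (r : Input n → I → K), Reg G d (1 : Representation K G (I → K)) r →
          r y = r y' := by
  classical
  have hmn : m * 32 ≤ n := by
    have := Fintype.card_le_of_embedding β
    rwa [Fintype.card_prod, Fintype.card_fin, Fintype.card_fin, Fintype.card_fin] at this
  set N := m / 160 with hN
  have hNpos : 0 < N := by rw [hN]; omega
  have hNn : 160 * N ≤ m := by rw [hN]; exact Nat.mul_div_le m 160
  obtain ⟨T, hT⟩ := exists_expander N hNpos
  obtain ⟨b, hb⟩ := exists_far N hNpos (lhs T)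
  obtain ⟨ι, hι⟩ := exists_emb (M := 5 * N) β (by omega)
  refine ⟨inst T ι 0, inst T ι b, ?_, ?_⟩
  · have h2 := models_zero T ι
    have h3 := models_far T ι b hb
    refine le_trans ?_ h2
    refine (Nat.mul_le_mul_left _ h3).trans ?_
    rw [← pow_add]
    apply Nat.pow_le_pow_right (by norm_num)
    omega
  · intro K _ h2 G hG k d hk hd I r hr
    rcases Nat.eq_zero_or_pos k with h0 | h0
    · -- there are no registers
      have h4 := hr.card_le
      have h5 : d = 0 := by
        rw [h0, pow_zero] at hd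
        omega
      rw [h5, Nat.le_zero] at h4
      have h6 : IsEmpty I := by
        rcases Nat.card_eq_zero.1 h4.2 with h | h
        · exact h
        · exact absurd h4.1 (not_finite_iff_infinite.2 h)
      funext i
      exact h6.elim i
    · rw [← fam_elim T ι, ← fam_elim T ι]
      apply hr.fam_eq (hι G hG) T (isFam_fam T ι) h2 hd h0
      · intro h4
        rw [Sym2.card, Fintype.card_fin] at h4
        have h5 : n + 1 ≤ (n + 1).choose 2 := by
          rw [Nat.choose_two_right, Nat.add_sub_cancel, Nat.le_div_iff_mul_le (by norm_num)]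
          nlinarith
        by_contra h6
        have h7 : 2 ^ k ≤ 2 ^ 2 := Nat.pow_le_pow_right (by norm_num) (by omega)
        omega
      · intro R hR
        apply hT
        omega

/-- The lower bound for approximate counting. -/
theorem main (n m : ℕ) (β : Fin m × Fin 32 ↪ Fin n) :
    ∃ y y' : Input n, (2 : ℝ) ^ ((m : ℝ) / 10 ^ 8) * models n y' ≤ models n y ∧
      ∀ (K : Type) [Field K], (2 : K) ≠ 0 → ∀ G : Subgroup (Perm (Fin n)), ContainsAlt β G →
        ∀ d : ℕ, (2 * d : ℝ) < (2 : ℝ) ^ ((m : ℝ) / 10 ^ 8) →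
        ∀ (I : Type) (r : Input n → I → K), Reg G d (1 : Representation K G (I → K)) r →
          r y = r y' := by
  have hmn : m * 32 ≤ n := by
    have := Fintype.card_le_of_embedding β
    rwa [Fintype.card_prod, Fintype.card_fin, Fintype.card_fin, Fintype.card_fin] at this
  -- from the real to the natural exponent
  have hk : ∀ d : ℕ, (2 * d : ℝ) < (2 : ℝ) ^ ((m : ℝ) / 10 ^ 8) → d < 2 ^ (m / 10 ^ 8) := by
    intro s hs
    have h1 : (m : ℝ) / 10 ^ 8 ≤ ((m / 10 ^ 8 + 1 : ℕ) : ℝ) := by
      rw [div_le_iff₀ (by positivity)]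
      have h2 : m < (m / 10 ^ 8 + 1) * 10 ^ 8 := by omega
      exact_mod_cast h2.le
    have h3 : (2 : ℝ) ^ ((m : ℝ) / 10 ^ 8) ≤ (2 : ℝ) ^ (m / 10 ^ 8 + 1) := by
      rw [← Real.rpow_natCast 2 (m / 10 ^ 8 + 1)]
      exact Real.rpow_le_rpow_of_exponent_le (by norm_num) h1
    have h4 : (2 * s : ℝ) < (2 : ℝ) ^ (m / 10 ^ 8 + 1) := lt_of_lt_of_le hs h3
    rw [pow_succ] at h4
    have h5 : (s : ℝ) < ((2 ^ (m / 10 ^ 8) : ℕ) : ℝ) := by
      push_cast
      linarith
    exact_mod_cast h5
  rcases Nat.lt_or_ge m 160 with hm | hm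
  · refine ⟨fun _ => false, fun _ => true, ?_, ?_⟩
    · rw [models_ones, models_zeros]
      push_cast
      rw [mul_one, ← Real.rpow_natCast 2 n]
      apply Real.rpow_le_rpow_of_exponent_le (by norm_num)
      rw [div_le_iff₀ (by positivity)]
      have h4 : m ≤ n * 10 ^ 8 := by omega
      exact_mod_cast h4
    · intro K _ h2 G hG d hd I r hr
      have h1 := hk d hd
      rw [Nat.div_eq_of_lt (by omega), pow_zero, Nat.lt_one_iff] at h1
      have h4 := hr.card_le
      rw [h1, Nat.le_zero] at h4
      have h6 : IsEmpty I := by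
        rcases Nat.card_eq_zero.1 h4.2 with h | h
        · exact h
        · exact absurd h4.1 (not_finite_iff_infinite.2 h)
      funext i
      exact h6.elim i
  · obtain ⟨y, y', h1, h2⟩ := exists_pair_large n m β hm
    refine ⟨y, y', ?_, ?_⟩
    · have h3 : (2 : ℝ) ^ ((m : ℝ) / 10 ^ 8) ≤ (2 : ℝ) ^ (2 * (m / 160)) := by
        rw [← Real.rpow_natCast 2 (2 * (m / 160))]
        apply Real.rpow_le_rpow_of_exponent_le (by norm_num)
        rw [div_le_iff₀ (by positivity)]
        have h4 : m ≤ 2 * (m / 160) * 10 ^ 8 := by omega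
        exact_mod_cast h4
      have h5 : ((2 ^ (2 * (m / 160)) * models n y' : ℕ) : ℝ) ≤ (models n y : ℕ) := by
        exact_mod_cast h1
      push_cast at h5
      refine le_trans ?_ h5
      exact mul_le_mul_of_nonneg_right h3 (Nat.cast_nonneg _)
    · intro K _ h3 G hG d hd I r hr
      apply h2 K h3 G hG (m / 10 ^ 8) d _ (hk d hd) I r hr
      omega

end Pool.Agent.EQ
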