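import Pool.Agent.EQ.Basic
import Pool.Agent.EQ.Fourier
import Pool.Agent.EQ.Even
import Pool.Agent.Helper94.SN.Shift

/-!
# Block preserving permutations of the vertices of an instance
-/

set_option autoImplicit false

namespace Pool.Agent.EQ

open Equiv Equiv.Perm Pool.Agent.Helper94.SN

variable {M N n : ℕ}

/-- the permutation of the vertices that acts on the values in the equation `q` by `f q` -/
def fib (f : Fin M → Perm (Fin 5 → ZMod 2)) : Perm (Vert M) where
  toFun u := (u.1, f u.1 u.2.1, u.2.2)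
  invFun u := (u.1, (f u.1).symm u.2.1, u.2.2)
  left_inv u := Prod.ext rfl (Prod.ext ((f u.1).symm_apply_apply _) rfl)
  right_inv u := Prod.ext rfl (Prod.ext ((f u.1).apply_symm_apply _) rfl)

/-! ### translations of the values -/

/-- add the vector `a` to the values -/
def tau (a : Fin M × Fin 5 → ZMod 2) : Perm (Vert M) := fib fun q => tr fun i => a (q, i)

theorem tau_apply (a : Fin M × Fin 5 → ZMod 2) (u : Vert M) :
    tau a u = (u.1, u.2.1 + (fun i => a (u.1, i)), u.2.2) := rfl

theorem tau_symm_apply (a : Fin M × Fin 5 → ZMod 2) (u : Vert M) :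
    (tau a).symm u = (u.1, u.2.1 + (fun i => a (u.1, i)), u.2.2) := rfl

theorem tau_add (a b : Fin M × Fin 5 → ZMod 2) : tau (a + b) = tau a * tau b := by
  ext1 u
  rw [Perm.mul_apply, tau_apply, tau_apply, tau_apply]
  refine Prod.ext rfl (Prod.ext ?_ rfl)
  funext i
  simp only [Pi.add_apply]
  ring

theorem tau_zero : tau (0 : Fin M × Fin 5 → ZMod 2) = 1 := by
  ext1 u
  rw [tau_apply]
  refine Prod.ext rfl (Prod.ext ?_ rfl)
  funext i
  simp

/-! ### transvections of the values -/

/-- add, in the equations of `U`, the value of the variable with number `i q` to the value of the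
variable with number `j q` -/
def tv (U : Finset (Fin M)) (i j : Fin M → Fin 5) (u : Vert M) : Vert M :=
  (u.1, (if u.1 ∈ U then u.2.1 + Pi.single (j u.1) (u.2.1 (i u.1)) else u.2.1), u.2.2)

theorem tv_tv (U : Finset (Fin M)) {i j : Fin M → Fin 5} (hij : ∀ q, i q ≠ j q) (u : Vert M) :
    tv U i j (tv U i j u) = u := by
  unfold tv
  refine Prod.ext rfl (Prod.ext ?_ rfl)
  by_cases h : u.1 ∈ U
  · simp only [if_pos h]
    rw [Pi.add_apply, Pi.single_eq_of_ne (hij u.1), add_zero, add_add_cancel_two]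
  · simp only [if_neg h]

/-- the permutation given by the transvections -/
def tvPerm (U : Finset (Fin M)) {i j : Fin M → Fin 5} (hij : ∀ q, i q ≠ j q) : Perm (Vert M) :=
  fib fun q => if q ∈ U then tvq (i q) (j q) (hij q) else 1

theorem tvPerm_apply (U : Finset (Fin M)) {i j : Fin M → Fin 5} (hij : ∀ q, i q ≠ j q)
    (u : Vert M) : tvPerm U hij u = tv U i j u := by
  unfold tvPerm tv fib
  refine Prod.ext rfl (Prod.ext ?_ rfl)
  change (if u.1 ∈ U then tvq (i u.1) (j u.1) (hij u.1) else 1) u.2.1 = _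
  by_cases h : u.1 ∈ U
  · rw [if_pos h, if_pos h, tvq_apply]
  · rw [if_neg h, if_neg h]; rfl

/-- the vector obtained from `a` by the transvections -/
def tvVec (U : Finset (Fin M)) (i j : Fin M → Fin 5) (a : Fin M × Fin 5 → ZMod 2) :
    Fin M × Fin 5 → ZMod 2 :=
  fun p => a p + if p.1 ∈ U ∧ p.2 = j p.1 then a (p.1, i p.1) else 0

theorem tau_mul_tv (U : Finset (Fin M)) {i j : Fin M → Fin 5} (hij : ∀ q, i q ≠ j q)
    (a : Fin M × Fin 5 → ZMod 2) :
    tau a * tvPerm U hij = tvPerm U hij * tau (tvVec U i j a) := by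
  ext1 u
  rw [Perm.mul_apply, Perm.mul_apply, tvPerm_apply, tvPerm_apply]
  rw [tau_apply, tau_apply]
  unfold tv
  refine Prod.ext rfl (Prod.ext ?_ rfl)
  by_cases h : u.1 ∈ U
  · simp only [tvVec, h, true_and, if_true]
    funext l
    simp only [Pi.add_apply, if_neg (hij u.1), add_zero]
    by_cases hl : l = j u.1
    · subst hl
      rw [Pi.single_eq_same, Pi.single_eq_same, if_pos rfl]
      have h2 : ∀ x : ZMod 2, x + x = 0 := CharTwo.add_self_eq_zero
      have h3 := h2 (a (u.1, i u.1))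
      linear_combination -h3
    · rw [Pi.single_eq_of_ne hl, Pi.single_eq_of_ne hl, if_neg hl]
      ring
  · simp only [tvVec, h, false_and, if_false, add_zero]

/-- the character `D` composed with the transvections -/
theorem dot_tvVec (U : Finset (Fin M)) (i j : Fin M → Fin 5) (D a : Fin M × Fin 5 → ZMod 2)
    (hD : ∀ q ∈ U, D (q, j q) = 1) :
    dotProduct D (tvVec U i j a) =
      dotProduct (D + fun p => if p.1 ∈ U ∧ p.2 = i p.1 then 1 else 0) a := by
  simp only [dotProduct, tvVec, mul_add, Pi.add_apply, add_mul, Finset.sum_add_distrib]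
  congr 1
  rw [Fintype.sum_prod_type, Fintype.sum_prod_type]
  apply Finset.sum_congr rfl
  intro q _
  by_cases h : q ∈ U
  · simp only [h, true_and, mul_ite, mul_zero, ite_mul, one_mul, zero_mul, Finset.sum_ite_eq',
      Finset.mem_univ, if_true, hD q h]
  · simp only [h, false_and, if_false, mul_zero, zero_mul]

/-! ### admissible embeddings -/

/-- the group contains the permutations that act evenly on the values in each equation -/
def Adm (ι : Vert M ↪ Fin n) (G : Subgroup (Perm (Fin n))) : Prop :=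
  ∀ f : Fin M → Perm (Fin 5 → ZMod 2), (∀ q, sign (f q) = 1) → (fib f).viaEmbedding ι ∈ G

theorem exists_emb {m : ℕ} (β : Fin m × Fin 32 ↪ Fin n) (h : 32 * M ≤ m) :
    ∃ ι : Vert M ↪ Fin n, ∀ G, ContainsAlt β G → Adm ι G := by
  classical
  have e1 : (Fin 5 → ZMod 2) ≃ Fin 32 := Fintype.equivFinOfCardEq (by simp [ZMod.card])
  obtain ⟨e2⟩ : Nonempty (Fin M × (Fin 16 × Bool) ↪ Fin m) := by
    apply Function.Embedding.nonempty_of_card_le
    simp only [Fintype.card_prod, Fintype.card_fin, Fintype.card_bool]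
    omega
  set ι : Vert M ↪ Fin n := ⟨fun u => β (e2 (u.1, u.2.2), e1 u.2.1), by
    intro u v huv
    have h1 := β.injective huv
    have h2 := e2.injective (Prod.ext_iff.1 h1).1
    have h3 := e1.injective (Prod.ext_iff.1 h1).2
    exact Prod.ext (Prod.ext_iff.1 h2).1 (Prod.ext h3 (Prod.ext_iff.1 h2).2)⟩ with hιdef
  have hι : ∀ u, ι u = β (e2 (u.1, u.2.2), e1 u.2.1) := fun u => rfl
  refine ⟨ι, ?_⟩
  intro G hG f hf
  set g : Fin m → Perm (Fin 32) := fun k =>
    if h : ∃ p, e2 p = k then e1.permCongr (f h.choose.1) else 1 with hg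
  have hg1 : ∀ p, g (e2 p) = e1.permCongr (f p.1) := by
    intro p
    have h1 : ∃ p', e2 p' = e2 p := ⟨p, rfl⟩
    rw [hg]
    change (if h : ∃ p', e2 p' = e2 p then e1.permCongr (f h.choose.1) else 1) = _
    rw [dif_pos h1, e2.injective h1.choose_spec]
  have hg2 : ∀ k, (¬ ∃ p, e2 p = k) → g k = 1 := fun k hk => dif_neg hk
  have hg3 : ∀ k, sign (g k) = 1 := by
    intro k
    by_cases hk : ∃ p, e2 p = k
    · obtain ⟨p, rfl⟩ := hk
      rw [hg1, sign_permCongr, hf]
    · rw [hg2 k hk, map_one]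
  have h4 : (fib f).viaEmbedding ι = Equiv.Perm.viaEmbedding (Equiv.prodCongrRight g) β := by
    ext1 x
    by_cases hx : x ∈ Set.range β
    · obtain ⟨⟨k, w⟩, rfl⟩ := hx
      rw [viaEmbedding_apply, Equiv.prodCongrRight_apply]
      by_cases hk : ∃ p, e2 p = k
      · obtain ⟨⟨q, c⟩, rfl⟩ := hk
        have h5 : β (e2 (q, c), w) = ι (q, e1.symm w, c) := by
          rw [hι, Equiv.apply_symm_apply]
        rw [h5, viaEmbedding_apply, hg1, hι]
        rfl
      · rw [hg2 k hk, Perm.one_apply]
        apply viaEmbedding_apply_of_notMem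
        rintro ⟨u, hu⟩
        rw [hι] at hu
        exact hk ⟨_, (Prod.ext_iff.1 (β.injective hu)).1⟩
    · rw [viaEmbedding_apply_of_notMem _ _ _ hx, viaEmbedding_apply_of_notMem]
      rintro ⟨u, hu⟩
      exact hx ⟨_, hu⟩
  rw [h4]
  exact hG g hg3

end Pool.Agent.EQ
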